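import Mathlib

set_option autoImplicit false

noncomputable section

namespace Pool.Agent.Work.MP_e97a4d_nt.Thue

/-- Removing two extra vertices. -/
theorem partner {α : Type} (P : Finset α) (Q : Finset (α ⊕ Fin 2)) (hQ : ∀ p, Sum.inl p ∈ Q → p ∈ P)
    (R : α ⊕ Fin 2 → α ⊕ Fin 2 → Prop) (R' : α → α → Prop)
    (h1 : ∀ p p' : α, R (Sum.inl p) (Sum.inl p') → R' p p')
    (h2 : ∀ (p p' : α) (b : Fin 2), Sum.inr b ∈ Q → R (Sum.inl p) (Sum.inr b) →
      R (Sum.inl p') (Sum.inr b) → R' p p')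
    (hP : ∀ p ∈ P, ∃ q ∈ Q, q ≠ Sum.inl p ∧ R (Sum.inl p) q) :
    ∃ P₀ ⊆ P, P.card ≤ P₀.card + 2 ∧ ∀ p ∈ P₀, ∃ q ∈ P, q ≠ p ∧ R' p q := by
  classical
  choose! π hπQ hπne hπR using hP
  let B : Fin 2 → Finset α := fun b => P.filter fun p => π p = Sum.inr b
  let Bad : Finset α := Finset.univ.biUnion fun b => if (B b).card ≤ 1 then B b else ∅
  have hBad : Bad.card ≤ 2 := by
    refine Finset.card_biUnion_le.trans ?_
    refine (Finset.sum_le_card_nsmul Finset.univ _ 1 ?_).trans (by simp)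
    intro b _
    split_ifs with h
    · exact h
    · simp
  refine ⟨P \ Bad, Finset.sdiff_subset, ?_, ?_⟩
  · have := Finset.card_le_card_sdiff_add_card (s := P) (t := Bad)
    omega
  · intro p hp
    rw [Finset.mem_sdiff] at hp
    obtain ⟨hpP, hpB⟩ := hp
    rcases hπ : π p with p' | b
    · have h3 := hπQ p hpP
      have h4 := hπne p hpP
      have h5 := hπR p hpP
      rw [hπ] at h3 h4 h5
      exact ⟨p', hQ p' h3, fun h => h4 (by rw [h]), h1 p p' h5⟩
    · have hpb : p ∈ B b := Finset.mem_filter.2 ⟨hpP, hπ⟩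
      have hcard : 1 < (B b).card := by
        by_contra hcon
        apply hpB
        refine Finset.mem_biUnion.2 ⟨b, Finset.mem_univ _, ?_⟩
        rw [if_pos (not_lt.1 hcon)]
        exact hpb
      obtain ⟨p', hp', hne⟩ := Finset.exists_mem_ne hcard p
      obtain ⟨hp'P, hp'π⟩ := Finset.mem_filter.1 hp'
      have h3 := hπQ p hpP
      have h5 := hπR p hpP
      have h6 := hπR p' hp'P
      rw [hπ] at h3 h5
      rw [hp'π] at h6
      exact ⟨p', hp'P, hne, h2 p p' b h3 h5 h6⟩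

end Pool.Agent.Work.MP_e97a4d_nt.Thue
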