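import Pool.Agent.Work.MP_e97a4d_nt.Hyp.Star
import Pool.Agent.Work.MP_e97a4d_nt.Hyp.Pairs

/-!
`Hyp.star` and `Hyp.pairs` for a tuple `η` with `η l₀ = 1` and a size system `Z` of another tuple.
-/

set_option autoImplicit false

noncomputable section

namespace Pool.Agent.Work.MP_e97a4d_nt.Thue

open Pool.Agent.Work.MP_e97a4d_nt.Hyp Pool.Agent.Work.MP_e97a4d_nt.Hyp.PairsAux

/-- A star of slow ratios. -/
theorem starB {n n' : ℕ} {ζ : Fin n' → Mero} (Z : SizeSys ζ) (η : Fin (n + 1) → Mero) {P : Type}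
    (L : P → Fin (n + 1) → ℂ)
    (hL : Gen L) (l₀ : Fin (n + 1)) (h1 : η l₀ = 1) (v : P) (h : Fin n → P)
    (hh : Function.Injective h) (hv : ∀ i, h i ≠ v) (j : ℕ) (ε : ℝ) (hε : 0 ≤ ε)
    (hlv : lin (L v) η ≠ 0) (hs : ∀ i, Z.Sz j ε (lin (L (h i)) η / lin (L v) η)) :
    ∀ k, Z.Sz j (2 * n * ε) (η k) := by
  classical
  have hinj : Function.Injective (Fin.cons v h : Fin (n + 1) → P) := by
    rw [Fin.cons_injective_iff]
    refine ⟨?_, hh⟩
    rintro ⟨i, hi⟩
    exact hv i hi
  have hdet := hL.g1 _ hinj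
  set A : Matrix (Fin (n + 1)) (Fin (n + 1)) ℂ :=
    Matrix.of fun i k => L ((Fin.cons v h : Fin (n + 1) → P) i) k with hA
  have hunit : IsUnit A.det := isUnit_iff_ne_zero.2 hdet
  -- the forms
  have hmul : (A.map (algebraMap ℂ Mero)).mulVec η =
      fun i => lin (L ((Fin.cons v h : Fin (n + 1) → P) i)) η := by
    funext i
    rw [Matrix.mulVec, dotProduct, lin]
    refine Finset.sum_congr rfl fun k _ => ?_
    rw [Matrix.map_apply, hA, Matrix.of_apply, Algebra.smul_def]
  have hinv : (A⁻¹.map (algebraMap ℂ Mero)) * (A.map (algebraMap ℂ Mero)) = 1 := by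
    rw [← Matrix.map_mul, Matrix.nonsing_inv_mul A hunit,
      Matrix.map_one _ (map_zero _) (map_one _)]
  have hη : ∀ k, η k = ∑ i, algebraMap ℂ Mero (A⁻¹ k i) *
      lin (L ((Fin.cons v h : Fin (n + 1) → P) i)) η := by
    intro k
    have h2 : (A⁻¹.map (algebraMap ℂ Mero)).mulVec ((A.map (algebraMap ℂ Mero)).mulVec η) = η := by
      rw [Matrix.mulVec_mulVec, hinv, Matrix.one_mulVec]
    rw [hmul] at h2
    have h3 := congrFun h2 k
    rw [← h3, Matrix.mulVec, dotProduct]
    rfl
  have hratio : ∀ k, Z.Sz j (n * ε) (η k / lin (L v) η) := by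
    intro k
    have e : η k / lin (L v) η = algebraMap ℂ Mero (A⁻¹ k 0) +
        ∑ i : Fin n, algebraMap ℂ Mero (A⁻¹ k i.succ) * (lin (L (h i)) η / lin (L v) η) := by
      conv_lhs => rw [hη k]
      rw [Fin.sum_univ_succ, add_div, Finset.sum_div]
      congr 1
      · rw [Fin.cons_zero]
        exact mul_div_cancel_right₀ _ hlv
      · refine Finset.sum_congr rfl fun i _ => ?_
        rw [Fin.cons_succ, mul_div_assoc]
    rw [e]
    have h3 : ∀ i ∈ (Finset.univ : Finset (Fin n)), Z.Sz j ε
        (algebraMap ℂ Mero (A⁻¹ k i.succ) * (lin (L (h i)) η / lin (L v) η)) := by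
      intro i _
      have h4 := Z.mul le_rfl hε (Z.const j (D.map_algebraMap (A⁻¹ k i.succ))) (hs i)
      rwa [zero_add] at h4
    have h5 := sz_sum Z Finset.univ _ j ε hε h3
    rw [Finset.card_univ, Fintype.card_fin] at h5
    have h6 := Z.add le_rfl (by positivity) (Z.const j (D.map_algebraMap (A⁻¹ k 0))) h5
    rwa [zero_add] at h6
  intro k
  have hlv' : Z.Sz j (n * ε) (lin (L v) η) := by
    have h2 := hratio l₀
    rw [h1] at h2
    have h3 := Z.inv (by positivity) h2
    rwa [one_div, inv_inv] at h3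
  have h2 := Z.mul (by positivity) (by positivity) (hratio k) hlv'
  rw [div_mul_cancel₀ _ hlv] at h2
  exact Z.mono le_rfl (by linarith) h2

/-- Many disjoint pairs with slow ratios. -/
theorem pairsB {n n' : ℕ} {ζ : Fin n' → Mero} (Z : SizeSys ζ) (η : Fin (n + 1) → Mero) {P : Type}
    (L : P → Fin (n + 1) → ℂ)
    (hL : Gen L) (l₀ : Fin (n + 1)) (h1 : η l₀ = 1) (p q : Pair (n + 1) → P)
    (hpq : Function.Injective (Sum.elim p q)) (j : ℕ) (ε : ℝ) (hε : 0 ≤ ε)
    (hp : ∀ s, lin (L (p s)) η ≠ 0) (hs : ∀ s, Z.Sz j ε (lin (L (q s)) η / lin (L (p s)) η)) :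
    ∀ k, Z.Sz j (2 * n.factorial * n * ε) (η k) := by
  classical
  set h : Pair (n + 1) → Mero := fun s => lin (L (q s)) η / lin (L (p s)) η with hh
  have hη : ∀ s, lin (L (q s)) η = h s * lin (L (p s)) η := by
    intro s
    rw [hh]
    field_simp [hp s]
  -- coefficients
  set c : Pair (n + 1) → Fin (n + 1) → Mero := fun s k =>
    algebraMap ℂ Mero (L (q s) k) + (-(algebraMap ℂ Mero (L (p s) k) * h s)) with hc
  have hcs : ∀ s k, Z.Sz j ε (c s k) := by
    intro s k
    have h3 := sz_neg Z j ε hε _ (sz_cmul Z j ε hε (L (p s) k) (h s) (hs s))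
    have h4 := Z.add le_rfl hε (Z.const j (D.map_algebraMap (L (q s) k))) h3
    rwa [zero_add] at h4
  have hlin : ∀ (s : Pair (n + 1)) (y : Fin (n + 1) → Mero),
      ∑ k, c s k * y k = lin (L (q s)) y - h s * lin (L (p s)) y := by
    intro s y
    unfold lin
    rw [Finset.mul_sum, ← Finset.sum_sub_distrib]
    refine Finset.sum_congr rfl fun k _ => ?_
    simp only [hc, Algebra.smul_def]
    ring
  set v : Pair (n + 1) → (Fin n → Mero) := fun s i => c s (l₀.succAbove i) with hv
  -- the rows span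
  have hspan : Submodule.span Mero (Set.range v) = ⊤ := by
    by_contra hne
    obtain ⟨f, hf0, hf⟩ := Submodule.exists_dual_map_eq_bot_of_lt_top (lt_top_iff_ne_top.2 hne)
      inferInstance
    apply hf0
    set z : Fin n → Mero := fun i => f (Pi.single i 1) with hz
    have hfz : ∀ w : Fin n → Mero, f w = ∑ i, w i * z i := by
      intro w
      conv_lhs => rw [← Finset.univ_sum_single w]
      rw [map_sum]
      refine Finset.sum_congr rfl fun i _ => ?_
      have : (Pi.single i (w i) : Fin n → Mero) = w i • Pi.single i 1 := by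
        rw [← Pi.single_smul, smul_eq_mul, mul_one]
      rw [this, map_smul, smul_eq_mul]
    have hvz : ∀ s, ∑ i, v s i * z i = 0 := by
      intro s
      rw [← hfz]
      have : f (v s) ∈ (Submodule.span Mero (Set.range v)).map f :=
        Submodule.mem_map_of_mem (Submodule.subset_span ⟨s, rfl⟩)
      rw [hf] at this
      exact this
    set y : Fin (n + 1) → Mero := Fin.insertNth l₀ 0 z with hy
    have hy0 : y l₀ = 0 := by rw [hy]; simp
    have hyi : ∀ i, y (l₀.succAbove i) = z i := by intro i; rw [hy]; simp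
    have hy2 : ∀ s, lin (L (q s)) y = h s * lin (L (p s)) y := by
      intro s
      rw [← sub_eq_zero, ← hlin, Fin.sum_univ_succAbove _ l₀, hy0, mul_zero, zero_add]
      simp only [hyi]
      exact hvz s
    have hz0 : ∀ i, z i = 0 := by
      intro i
      have := ker_le_one L hL p q hpq h hη hy2 l₀ (l₀.succAbove i)
      rw [h1, hy0, one_mul, mul_zero, hyi] at this
      exact this
    apply LinearMap.ext
    intro w
    rw [hfz]
    simp [hz0]
  obtain ⟨κ, a, ha, hspan2, hli⟩ := exists_linearIndependent' Mero v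
  rw [hspan] at hspan2
  let b : Module.Basis κ Mero (Fin n → Mero) := Module.Basis.mk hli hspan2.ge
  have hκ : Finite κ := Module.Finite.finite_basis b
  have := Fintype.ofFinite κ
  have hcardκ : Fintype.card κ = n := by
    have := Module.finrank_eq_card_basis b
    rw [Module.finrank_fin_fun] at this
    exact this.symm
  let e : Fin n ≃ κ := (Fintype.equivFinOfCardEq hcardκ).symm
  set M : Matrix (Fin n) (Fin n) Mero := Matrix.of fun i => v (a (e i)) with hM
  have hMdet : M.det ≠ 0 := by
    have h3 : LinearIndependent Mero M.row := hli.comp e e.injective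
    have h4 := Matrix.linearIndependent_rows_iff_isUnit.1 h3
    exact ((Matrix.isUnit_iff_isUnit_det _).1 h4).ne_zero
  set β : Fin n → Mero := fun i => - c (a (e i)) l₀ with hβ
  have hMz : M.mulVec (fun i => η (l₀.succAbove i)) = β := by
    funext i
    show ∑ k, c (a (e i)) (l₀.succAbove k) * η (l₀.succAbove k) = - c (a (e i)) l₀
    have h3 := hlin (a (e i)) η
    rw [hη, sub_self, Fin.sum_univ_succAbove _ l₀, h1, mul_one] at h3
    rw [eq_neg_iff_add_eq_zero, add_comm]
    exact h3
  have hcramer : ∀ i, M.det * η (l₀.succAbove i) = (M.updateCol i β).det := by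
    intro i
    have h3 : M.cramer β = M.det • (fun i => η (l₀.succAbove i)) := by
      rw [← hMz, Matrix.cramer_eq_adjugate_mulVec, Matrix.mulVec_mulVec, Matrix.adjugate_mul,
        Matrix.smul_mulVec, Matrix.one_mulVec]
    have h4 := congrFun h3 i
    rw [Matrix.cramer_apply] at h4
    rw [h4]
    rfl
  have hβs : ∀ i, Z.Sz j ε (β i) := fun i => sz_neg Z j ε hε _ (hcs _ _)
  intro k
  rcases Fin.eq_self_or_eq_succAbove l₀ k with hk | ⟨i, hk⟩
  · rw [hk, h1]
    exact Z.mono le_rfl (by positivity) (Z.const j D.map_one_eq_zero)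
  · have h3 : η k = (M.updateCol i β).det * M.det⁻¹ := by
      rw [hk, ← hcramer i]
      field_simp
    rw [h3]
    have h4 := sz_det Z (M.updateCol i β) j ε hε (by
      intro x z
      rw [Matrix.updateCol_apply]
      split_ifs
      · exact hβs _
      · exact hcs _ _)
    have h5 := Z.inv (by positivity) (sz_det Z M j ε hε (fun x z => hcs _ _))
    have h6 := Z.mul (by positivity) (by positivity) h4 h5
    have h7 : (n.factorial : ℝ) * (n * ε) + n.factorial * (n * ε) = 2 * n.factorial * n * ε := by ring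
    rw [h7] at h6
    exact h6

end Pool.Agent.Work.MP_e97a4d_nt.Thue
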