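import Pool.Agent.Work.MP_e97a4d_nt.Thue.SysDefs
import Pool.Agent.Work.MP_e97a4d_nt.Hyp.PtToCurve

/-!
The conditions for `f = 1` in terms of meromorphic functions without poles and of `S`-integral elements.
-/

set_option autoImplicit false

noncomputable section

namespace Pool.Agent.Work.MP_e97a4d_nt.Thue

open IsDedekindDomain NumberField Filter
open scoped Topology
open Pool.Agent.Work.MP_e97a4d_nt Pool.Agent.Work.MP_e97a4d_nt.Hyp

variable {F₀ : Type} [Field F₀] {m : ℕ}

private theorem eq_of_codiscrete {f g : ℂ → ℂ} (hf : Continuous f) (hg : Continuous g)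
    (h : f =ᶠ[codiscrete ℂ] g) (z : ℂ) : f z = g z := by
  have h1 : f =ᶠ[𝓝[≠] z] g := eq_nhdsNE h z
  have h2 : Tendsto f (𝓝[≠] z) (𝓝 (f z)) := hf.continuousAt.tendsto.mono_left nhdsWithin_le_nhds
  have h3 : Tendsto g (𝓝[≠] z) (𝓝 (g z)) := hg.continuousAt.tendsto.mono_left nhdsWithin_le_nhds
  exact tendsto_nhds_unique_of_eventuallyEq h2 h3 h1

private theorem bridge_eval (σ : F₀ →+* ℂ) (f : MvPolynomial (Fin (m + 1)) (𝓞 F₀))
    (u : Fin (m + 1) → ℂ → ℂ) (hu : ∀ k, Meromorphic (u k)) :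
    ∃ h : Meromorphic (fun z => f.eval₂ (σ.comp (algebraMap (𝓞 F₀) F₀)) (fun k => u k z)),
      f.eval₂ (rhoM σ) (fun k => mk (u k) (hu k)) =
        mk (fun z => f.eval₂ (σ.comp (algebraMap (𝓞 F₀) F₀)) (fun k => u k z)) h := by
  induction f using MvPolynomial.induction_on with
  | C a =>
    simp only [MvPolynomial.eval₂_C]
    exact ⟨Meromorphic.const _, rfl⟩
  | add p q hp hq =>
    obtain ⟨h1, e1⟩ := hp
    obtain ⟨h2, e2⟩ := hq
    simp only [MvPolynomial.eval₂_add]
    refine ⟨h1.add h2, ?_⟩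
    rw [e1, e2, mk_add]
    rfl
  | mul_X p k hp =>
    obtain ⟨h1, e1⟩ := hp
    simp only [MvPolynomial.eval₂_mul, MvPolynomial.eval₂_X]
    refine ⟨h1.mul (hu k), ?_⟩
    rw [e1, mk_mul]
    rfl

private theorem bridge_cont (σ : F₀ →+* ℂ) (f : MvPolynomial (Fin (m + 1)) (𝓞 F₀))
    (u : Fin (m + 1) → ℂ → ℂ) (hu : ∀ k, Continuous (u k)) :
    Continuous (fun z => f.eval₂ (σ.comp (algebraMap (𝓞 F₀) F₀)) (fun k => u k z)) := by
  induction f using MvPolynomial.induction_on with
  | C a =>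
    simp only [MvPolynomial.eval₂_C]
    exact continuous_const
  | add p q hp hq =>
    simp only [MvPolynomial.eval₂_add]
    exact hp.add hq
  | mul_X p k hp =>
    simp only [MvPolynomial.eval₂_mul, MvPolynomial.eval₂_X]
    exact hp.mul (hu k)

/-- meromorphic functions without poles -/
theorem exists_entire (u : Mero) (h : ∀ O ∈ VM, u ∈ O) : ∃ (f : ℂ → ℂ) (hf : Differentiable ℂ f),
    u = mk f (fun z => (hf.analyticAt z).meromorphicAt) := by
  have h1 : ∀ z, AnalyticAt ℂ (pcNf u) z := fun z => pcNf_analytic (h (Mz z) ⟨z, rfl⟩)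
  refine ⟨pcNf u, fun z => (h1 z).differentiableAt, ?_⟩
  conv_lhs => rw [← mk_rep u]
  rw [mk_eq_iff, Filter.EventuallyEq, Hyp.eventually_codiscrete]
  exact fun z => pcNf_eventually u z

private theorem eval_sub_one {K : Type} [CommRing K] (ρ : 𝓞 F₀ →+* K)
    (f : MvPolynomial (Fin (m + 1)) (𝓞 F₀)) (u : Fin (m + 1) → K) :
    (∀ e ∈ ({f - 1} : Finset (MvPolynomial (Fin (m + 1)) (𝓞 F₀))), e.eval₂ ρ u = 0) ↔
      f.eval₂ ρ u = 1 := by
  have h1 : (f - 1).eval₂ ρ u = f.eval₂ ρ u - 1 := by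
    rw [MvPolynomial.eval₂_sub, MvPolynomial.eval₂_one]
  constructor
  · intro h
    have h2 := h _ (Finset.mem_singleton_self _)
    rw [h1] at h2
    exact sub_eq_zero.1 h2
  · intro h e he
    rw [Finset.mem_singleton.1 he, h1, h, sub_self]

private theorem thue_I (σ : F₀ →+* ℂ) (f : MvPolynomial (Fin (m + 1)) (𝓞 F₀)) (b : ℕ) :
    (∀ u : Fin (m + 1) → ℂ → ℂ, (∀ k, Differentiable ℂ (u k)) →
      (∀ z, f.eval₂ (σ.comp (algebraMap (𝓞 F₀) F₀)) (fun k => u k z) = 1) →
      (b ≠ 0 → ∃ z, u 0 z ≠ 0) → ∀ k z, u k z = u k 0) ↔ AI σ {f - 1} b := by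
  constructor
  · intro H u hu
    obtain ⟨h1, h2, h3⟩ := hu
    rw [eval_sub_one] at h1
    have h4 : ∀ k, ∃ (g : ℂ → ℂ) (hg : Differentiable ℂ g),
        u k = mk g (fun z => (hg.analyticAt z).meromorphicAt) :=
      fun k => exists_entire (u k) (fun O hO => h3 O hO k)
    choose g hg hgu using h4
    obtain ⟨hm, he⟩ := bridge_eval σ f g (fun k z => ((hg k).analyticAt z).meromorphicAt)
    have hmk : (fun k => mk (g k) (fun z => ((hg k).analyticAt z).meromorphicAt)) = u := by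
      funext k
      exact (hgu k).symm
    rw [hmk, h1, ← mk_one, mk_eq_iff] at he
    have h5 : ∀ z, f.eval₂ (σ.comp (algebraMap (𝓞 F₀) F₀)) (fun k => g k z) = 1 := by
      intro z
      exact (eq_of_codiscrete continuous_const
        (bridge_cont σ f g (fun k => (hg k).continuous)) he z).symm
    have h6 := H g hg h5 (by
      intro hb
      by_contra hcon
      push Not at hcon
      apply h2
      have h7 : u 0 = 0 := by
        rw [hgu 0, mk_eq_zero_iff]
        exact Filter.Eventually.of_forall hcon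
      rw [h7, zero_pow hb])
    intro k
    refine ⟨g k 0, ?_⟩
    rw [hgu k, ← mk_const, mk_eq_iff]
    exact Filter.Eventually.of_forall fun z => (h6 k z).symm
  · intro H u hu hf hb k z
    obtain ⟨hm, he⟩ := bridge_eval σ f u (fun k z => ((hu k).analyticAt z).meromorphicAt)
    have h1 : (fun k => mk (u k) (fun z => ((hu k).analyticAt z).meromorphicAt)) ∈
        APts {f - 1} b (rhoM σ) VM := by
      refine ⟨?_, ?_, ?_⟩
      · rw [eval_sub_one, he, ← mk_one, mk_eq_iff]
        exact Filter.Eventually.of_forall hf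
      · by_cases hb0 : b = 0
        · rw [hb0, pow_zero]
          exact one_ne_zero
        · obtain ⟨z, hz⟩ := hb hb0
          refine pow_ne_zero _ fun h => hz ?_
          rw [mk_eq_zero_iff] at h
          exact eq_of_codiscrete (hu 0).continuous continuous_const h z
      · rintro O ⟨z, rfl⟩ k
        rw [mem_Mz, ord_mk]
        exact ((hu k).analyticAt z).meromorphicOrderAt_nonneg
    obtain ⟨c, hc⟩ := H _ h1 k
    rw [← mk_const, mk_eq_iff] at hc
    have h2 := eq_of_codiscrete continuous_const (hu k).continuous hc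
    rw [← h2 z, ← h2 0]

theorem thueI_iff (σ : F₀ →+* ℂ) (f : MvPolynomial (Fin (m + 1)) (𝓞 F₀)) :
    ThueI σ f ↔ AI σ {f - 1} 1 := by
  rw [← thue_I]
  constructor
  · intro H u h1 h2 h3
    exact H u h1 h2 (h3 one_ne_zero)
  · intro H u h1 h2 h3
    exact H u h1 h2 (fun _ => h3)

theorem thue0I_iff (σ : F₀ →+* ℂ) (f : MvPolynomial (Fin (m + 1)) (𝓞 F₀)) :
    Thue0I σ f ↔ AI σ {f - 1} 0 := by
  rw [← thue_I]
  constructor
  · intro H u h1 h2 _
    exact H u h1 h2
  · intro H u h1 h2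
    exact H u h1 h2 (fun h => absurd rfl h)

private theorem thue_II (f : MvPolynomial (Fin (m + 1)) (𝓞 F₀)) (b : ℕ) (F : Type) [Field F]
    [NumberField F] [Algebra F₀ F] (T : Finset (HeightOneSpectrum (𝓞 F))) :
    APts {f - 1} b (rhoF F₀ F) (VF F T) = (fun (u : Fin (m + 1) → SInt F T) k => (u k : F)) ''
      {u : Fin (m + 1) → SInt F T | f.eval₂ (structHom F₀ F T) u = 1 ∧ u 0 ^ b ≠ 0} := by
  have hev : ∀ u : Fin (m + 1) → SInt F T, f.eval₂ (rhoF F₀ F) (fun k => (u k : F)) =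
      ((f.eval₂ (structHom F₀ F T) u : SInt F T) : F) := by
    intro u
    have h1 := MvPolynomial.hom_eval₂ f (structHom F₀ F T) (algebraMap (SInt F T) F) u
    exact h1.symm
  ext u
  constructor
  · rintro ⟨h1, h2, h3⟩
    rw [eval_sub_one] at h1
    have h4 : ∀ k, u k ∈ (T : Set (HeightOneSpectrum (𝓞 F))).integer F := by
      intro k v hv
      exact h3 _ ⟨v, hv, rfl⟩ k
    refine ⟨fun k => ⟨u k, h4 k⟩, ⟨?_, ?_⟩, rfl⟩
    · apply Subtype.ext
      rw [← hev]
      exact h1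
    · intro h5
      exact h2 (congrArg Subtype.val h5)
  · rintro ⟨w, ⟨h1, h2⟩, rfl⟩
    refine ⟨?_, ?_, ?_⟩
    · rw [eval_sub_one, hev, h1]
      rfl
    · intro h5
      apply h2
      apply Subtype.ext
      exact h5
    · rintro O ⟨v, hv, rfl⟩ k
      exact (w k).2 v hv

private theorem thue_II' (f : MvPolynomial (Fin (m + 1)) (𝓞 F₀)) (b : ℕ) (F : Type) [Field F]
    [NumberField F] [Algebra F₀ F] (T : Finset (HeightOneSpectrum (𝓞 F))) :
    {u : Fin (m + 1) → SInt F T | f.eval₂ (structHom F₀ F T) u = 1 ∧ u 0 ^ b ≠ 0}.Finite ↔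
      (APts {f - 1} b (rhoF F₀ F) (VF F T)).Finite := by
  rw [thue_II]
  refine (Set.finite_image_iff ?_).symm
  intro u _ v _ huv
  funext k
  exact Subtype.ext (congrFun huv k)

theorem thueII_iff (f : MvPolynomial (Fin (m + 1)) (𝓞 F₀)) :
    ThueII f ↔ AII {f - 1} 1 := by
  unfold ThueII AII
  constructor
  · intro H F _ _ _ T
    rw [← thue_II']
    simpa only [pow_one] using H F T
  · intro H F _ _ _ T
    have h := (thue_II' f 1 F T).2 (H F T)
    simpa only [pow_one] using h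

theorem thue0II_iff (f : MvPolynomial (Fin (m + 1)) (𝓞 F₀)) :
    Thue0II f ↔ AII {f - 1} 0 := by
  unfold Thue0II AII
  constructor
  · intro H F _ _ _ T
    rw [← thue_II']
    exact (H F T).subset fun u hu => hu.1
  · intro H F _ _ _ T
    have h := (thue_II' f 0 F T).2 (H F T)
    refine h.subset fun u hu => ⟨hu, ?_⟩
    rw [pow_zero]
    exact one_ne_zero

end Pool.Agent.Work.MP_e97a4d_nt.Thue
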