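import Pool.Agent.Work.MP_e97a4d_nt.Thue.Half

/-!
Finiteness of the solutions of `f = 1` outside the variety, and the equivalence for one system.
-/

set_option autoImplicit false

noncomputable section

namespace Pool.Agent.Work.MP_e97a4d_nt.Thue

open IsDedekindDomain NumberField
open Pool.Agent.Work.MP_e97a4d_nt Pool.Agent.Work.MP_e97a4d_nt.Hyp

variable {F₀ : Type} [Field F₀] [NumberField F₀]

theorem rhoF_mem_VF (F : Type) [Field F] [NumberField F] [Algebra F₀ F]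
    (T : Finset (HeightOneSpectrum (𝓞 F))) : ∀ O ∈ VF F T, ∀ a, rhoF F₀ F a ∈ O := by
  rintro O ⟨v, _, rfl⟩ a
  change v.valuation F (algebraMap F₀ F (algebraMap (𝓞 F₀) F₀ a)) ≤ 1
  have h : algebraMap F₀ F (algebraMap (𝓞 F₀) F₀ a) =
      algebraMap (𝓞 F) F (RingOfIntegers.mapRingHom (algebraMap F₀ F) a) := rfl
  rw [h]
  exact v.valuation_le_one _

theorem eval₂_mem {R K : Type} [CommRing R] [Field K] {n : Type} (ρ : R →+* K) (O : ValuationSubring K)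
    (hρ : ∀ a, ρ a ∈ O) (u : n → K) (hu : ∀ k, u k ∈ O) (p : MvPolynomial n R) :
    p.eval₂ ρ u ∈ O := by
  induction p using MvPolynomial.induction_on with
  | C r => rw [MvPolynomial.eval₂_C]; exact hρ r
  | add p q hp hq => rw [MvPolynomial.eval₂_add]; exact add_mem hp hq
  | mul_X p i hp => rw [MvPolynomial.eval₂_mul, MvPolynomial.eval₂_X]; exact mul_mem hp (hu i)

theorem eval₂_const {n : Type} (σ : F₀ →+* ℂ) (u : n → Mero)
    (hu : ∀ k, u k ∈ Set.range (algebraMap ℂ Mero)) (p : MvPolynomial n (𝓞 F₀)) :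
    p.eval₂ (rhoM σ) u ∈ Set.range (algebraMap ℂ Mero) := by
  choose w hw using hu
  refine ⟨p.eval₂ (σ.comp (algebraMap (𝓞 F₀) F₀)) w, ?_⟩
  rw [MvPolynomial.hom_eval₂]
  have h1 : (fun k => algebraMap ℂ Mero (w k)) = u := funext hw
  rw [h1]
  rfl

theorem claimBT (σ : F₀ →+* ℂ) (Δ : ℕ → ℕ)
    (H : ∀ (m : ℕ) (f : MvPolynomial (Fin (m + 1)) (𝓞 F₀)), IsThue σ Δ m f →
      AI σ {f - 1} 1 → AII {f - 1} 1)
    {m : ℕ} (f g : MvPolynomial (Fin (m + 1)) (𝓞 F₀))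
    (h : ∀ u : Fin (m + 1) → Mero, (∃ k, u k ∉ Set.range (algebraMap ℂ Mero)) →
      f.eval₂ (rhoM σ) u = 1 → g.eval₂ (rhoM σ) u = 0)
    (F : Type) [Field F] [NumberField F] [Algebra F₀ F] (T : Finset (HeightOneSpectrum (𝓞 F))) :
    {u ∈ APts {f - 1} 0 (rhoF F₀ F) (VF F T) | g.eval₂ (rhoF F₀ F) u ≠ 0}.Finite := by
  classical
  let E₂ : Finset (MvPolynomial (Fin (m + 1 + 1)) (𝓞 F₀)) :=
    {MvPolynomial.rename Fin.succ f - 1, MvPolynomial.X 0 - MvPolynomial.rename Fin.succ g}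
  have hE₂ : ∀ {K : Type} [Field K] (ρ : 𝓞 F₀ →+* K) (u : Fin (m + 1 + 1) → K),
      (∀ e ∈ E₂, e.eval₂ ρ u = 0) ↔ f.eval₂ ρ (fun k => u k.succ) = 1 ∧
        u 0 = g.eval₂ ρ (fun k => u k.succ) := by
    intro K _ ρ u
    have h1 : (MvPolynomial.rename Fin.succ f - 1 : MvPolynomial (Fin (m + 1 + 1)) (𝓞 F₀)).eval₂ ρ u
        = f.eval₂ ρ (fun k => u k.succ) - 1 := by
      rw [MvPolynomial.eval₂_sub, MvPolynomial.eval₂_rename, MvPolynomial.eval₂_one]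
      rfl
    have h2 : (MvPolynomial.X 0 - MvPolynomial.rename Fin.succ g :
        MvPolynomial (Fin (m + 1 + 1)) (𝓞 F₀)).eval₂ ρ u = u 0 - g.eval₂ ρ (fun k => u k.succ) := by
      rw [MvPolynomial.eval₂_sub, MvPolynomial.eval₂_rename, MvPolynomial.eval₂_X]
      rfl
    constructor
    · intro hu
      have h3 := hu _ (Finset.mem_insert_self _ _)
      have h4 := hu _ (Finset.mem_insert_of_mem (Finset.mem_singleton_self _))
      rw [h1, sub_eq_zero] at h3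
      rw [h2, sub_eq_zero] at h4
      exact ⟨h3, h4⟩
    · rintro ⟨h3, h4⟩ e he
      rcases Finset.mem_insert.1 he with rfl | he
      · rw [h1, h3, sub_self]
      · rw [Finset.mem_singleton.1 he, h2, h4, sub_self]
  have hAI : AI σ E₂ 1 := by
    rintro u ⟨hu1, hu2, hu3⟩
    obtain ⟨h1, h2⟩ := (hE₂ (rhoM σ) u).1 hu1
    have h3 : ∀ k : Fin (m + 1), u k.succ ∈ Set.range (algebraMap ℂ Mero) := by
      by_contra hcon
      push Not at hcon
      have h4 := h (fun k => u k.succ) hcon h1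
      rw [h4] at h2
      rw [h2, pow_one] at hu2
      exact hu2 rfl
    intro k
    refine Fin.cases ?_ h3 k
    rw [h2]
    exact eval₂_const σ _ h3 g
  obtain ⟨m', f', ι, _, G, hf', h1, -, h2, -, -⟩ := half σ Δ E₂
  have hfin := h2 1 (H m' f' hf' (h1 1 hAI)) F T
  refine Set.Finite.of_injOn (f := fun u => (Fin.cons (g.eval₂ (rhoF F₀ F) u) u : Fin (m + 1 + 1) → F))
    ?_ ?_ hfin
  · rintro u ⟨⟨hu1, -, hu3⟩, hu4⟩
    have h5 : f.eval₂ (rhoF F₀ F) u = 1 := by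
      have := hu1 _ (Finset.mem_singleton_self _)
      rw [MvPolynomial.eval₂_sub, MvPolynomial.eval₂_one, sub_eq_zero] at this
      exact this
    refine ⟨?_, ?_, ?_⟩
    · rw [hE₂]
      exact ⟨by simpa using h5, by simp⟩
    · simpa using hu4
    · intro O hO k
      refine Fin.cases ?_ (fun k => ?_) k
      · exact eval₂_mem _ O (rhoF_mem_VF F T O hO) u (hu3 O hO) g
      · exact hu3 O hO k
  · intro u _ v _ huv
    funext k
    have := congrFun huv k.succ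
    simpa using this

theorem exists_thue (σ : F₀ →+* ℂ) (Δ : ℕ → ℕ)
    (H : ∀ (m : ℕ) (f : MvPolynomial (Fin (m + 1)) (𝓞 F₀)), IsThue σ Δ m f →
      AI σ {f - 1} 1 → AII {f - 1} 1)
    {n : ℕ} (E : Finset (MvPolynomial (Fin (n + 1)) (𝓞 F₀))) :
    ∃ (m : ℕ) (f : MvPolynomial (Fin (m + 1)) (𝓞 F₀)), IsThue σ Δ m f ∧
      (∀ b, AI σ {f - 1} b ↔ AI σ E b) ∧ (∀ b, AII {f - 1} b ↔ AII E b) := by
  obtain ⟨m, f, ι, hι, G, hf, h1, h2, h3, h4, h5⟩ := half σ Δ E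
  refine ⟨m, f, hf, fun b => ⟨h2 b, h1 b⟩, fun b => ⟨h3 b, ?_⟩⟩
  intro hE F _ _ _ T
  have h6 := h4 b hE F T
  have h7 : ∀ i, {u ∈ APts {f - 1} 0 (rhoF F₀ F) (VF F T) | (G i).eval₂ (rhoF F₀ F) u ≠ 0}.Finite :=
    fun i => claimBT σ Δ H f (G i) (fun u hu hfu => h5 u hu hfu i) F T
  refine (h6.union (Set.finite_iUnion h7)).subset ?_
  intro u hu
  by_cases hG : ∀ i, (G i).eval₂ (rhoF F₀ F) u = 0
  · exact Or.inl ⟨hu, hG⟩
  · push Not at hG
    obtain ⟨i, hi⟩ := hG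
    refine Or.inr (Set.mem_iUnion.2 ⟨i, ⟨hu.1, by rw [pow_zero]; exact one_ne_zero, hu.2.2⟩, hi⟩)

end Pool.Agent.Work.MP_e97a4d_nt.Thue
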