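import Pool.Agent.Work.MP_e97a4d_nt.Thue.Sch
import Pool.Agent.Work.MP_e97a4d_nt.Thue.Bridge
import Pool.Agent.Work.MP_e97a4d_nt.Thue.Full

set_option autoImplicit false

noncomputable section

namespace Pool.Agent.Work.MP_e97a4d_nt.Thue

open AlgebraicGeometry CategoryTheory NumberField
open Pool.Agent.Work.MP_e97a4d_nt Pool.Agent.Work.MP_e97a4d_nt.Hyp

theorem final (F₀ : Type) [Field F₀] [NumberField F₀] (σ : F₀ →+* ℂ) (Δ : ℕ → ℕ) :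
    ((∀ (V V' : Scheme.{0}) (π : V ⟶ Spec (CommRingCat.of (𝓞 F₀))) (i : V' ⟶ V), IsAffine V →
        LocallyOfFiniteType π → IsClosedImmersion i → CondI σ π i → CondII π i) ↔
      ∀ (m : ℕ) (f : MvPolynomial (Fin (m + 1)) (𝓞 F₀)), IsThue σ Δ m f →
        ThueI σ f → ThueII f) ∧
    ((∀ (V V' : Scheme.{0}) (π : V ⟶ Spec (CommRingCat.of (𝓞 F₀))) (i : V' ⟶ V), IsAffine V →
        LocallyOfFiniteType π → IsClosedImmersion i → (CondI σ π i ↔ CondII π i)) ↔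
      ∀ (m : ℕ) (f : MvPolynomial (Fin (m + 1)) (𝓞 F₀)), IsThue σ Δ m f →
        (ThueI σ f ↔ ThueII f)) ∧
    ((∀ (V : Scheme.{0}) (π : V ⟶ Spec (CommRingCat.of (𝓞 F₀))), IsAffine V →
        LocallyOfFiniteType π → Sep.NoCurve σ π → Sep.FinPts π) ↔
      ∀ (m : ℕ) (f : MvPolynomial (Fin (m + 1)) (𝓞 F₀)), IsThue σ Δ m f →
        Thue0I σ f → Thue0II f) := by
  refine ⟨⟨?_, ?_⟩, ⟨?_, ?_⟩, ⟨?_, ?_⟩⟩
  · intro H m f hf h
    obtain ⟨V, V', π, i, h1, h2, h3, h4, h5⟩ := aff_ex ({f - 1} : Finset (MvPolynomial _ (𝓞 F₀)))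
    rw [thueII_iff, ← h5]
    exact H V V' π i h1 h2 h3 ((h4 σ).2 ((thueI_iff σ f).1 h))
  · intro H V V' π i h1 h2 h3 h
    obtain ⟨L, hL, n, E, h4, h5⟩ := aff_iff π i
    rw [h5]
    intro l
    obtain ⟨m, f, ι, _, G, hf, h6, h7, h8, -, -⟩ := half σ Δ (E l)
    exact h8 1 ((thueII_iff f).1 (H m f hf ((thueI_iff σ f).2 (h6 1 ((h4 σ).1 h l)))))
  · intro H m f hf
    obtain ⟨V, V', π, i, h1, h2, h3, h4, h5⟩ := aff_ex ({f - 1} : Finset (MvPolynomial _ (𝓞 F₀)))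
    rw [thueI_iff, thueII_iff, ← h4 σ, ← h5]
    exact H V V' π i h1 h2 h3
  · intro H V V' π i h1 h2 h3
    obtain ⟨L, hL, n, E, h4, h5⟩ := aff_iff π i
    rw [h4 σ, h5]
    refine forall_congr' fun l => ?_
    obtain ⟨m, f, hf, h6, h7⟩ := exists_thue σ Δ (fun m f hf h => by
      rw [← thueI_iff] at h
      rw [← thueII_iff]
      exact (H m f hf).1 h) (E l)
    rw [← h6 1, ← h7 1, ← thueI_iff, ← thueII_iff]
    exact H m f hf
  · intro H m f hf h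
    obtain ⟨V, π, h1, h2, h4, h5⟩ := aff0_ex ({f - 1} : Finset (MvPolynomial _ (𝓞 F₀)))
    rw [thue0II_iff, ← h5]
    exact H V π h1 h2 ((h4 σ).2 ((thue0I_iff σ f).1 h))
  · intro H V π h1 h2 h
    obtain ⟨n, E, h4, h5⟩ := aff0_iff π
    rw [h5]
    obtain ⟨m, f, ι, _, G, hf, h6, h7, h8, -, -⟩ := half σ Δ E
    exact h8 0 ((thue0II_iff f).1 (H m f hf ((thue0I_iff σ f).2 (h6 0 ((h4 σ).1 h)))))

end Pool.Agent.Work.MP_e97a4d_nt.Thue
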