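import Pool.Agent.Work.MP_e97a4d_nt.Hyp.Defs

/-!
The equations `f(x_0, ..., x_m) = 1`, where `f` is a smooth form, and systems of polynomial equations.
-/

set_option autoImplicit false

noncomputable section

namespace Pool.Agent.Work.MP_e97a4d_nt.Thue

open IsDedekindDomain NumberField
open Pool.Agent.Work.MP_e97a4d_nt

variable {F₀ : Type} [Field F₀]

/-- `f` is a form of degree `>= Δ m` in `x_0, ..., x_m` over the ring of integers such that the
hypersurface `f = 0` of `P^m` and its section by `x_0 = 0` are smooth. -/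
structure IsThue (σ : F₀ →+* ℂ) (Δ : ℕ → ℕ) (m : ℕ) (f : MvPolynomial (Fin (m + 1)) (𝓞 F₀)) :
    Prop where
  deg : ∃ d, Δ m ≤ d ∧ f.IsHomogeneous d
  smooth : Hyp.SmoothOn σ f ∅
  smooth₀ : Hyp.SmoothOn σ f {0}

/-- (i) for `f = 1` and `x_0 = 0`: all solutions of `f(u) = 1` in entire functions with `u_0 ≠ 0` are
constant. -/
def ThueI (σ : F₀ →+* ℂ) {m : ℕ} (f : MvPolynomial (Fin (m + 1)) (𝓞 F₀)) : Prop :=
  ∀ u : Fin (m + 1) → ℂ → ℂ, (∀ k, Differentiable ℂ (u k)) →
    (∀ z, f.eval₂ (σ.comp (algebraMap (𝓞 F₀) F₀)) (fun k => u k z) = 1) →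
    (∃ z, u 0 z ≠ 0) → ∀ k z, u k z = u k 0

/-- (ii) for `f = 1` and `x_0 = 0`: for all finite extensions `F` of `F₀` and all finite sets `S` of
places the equation `f(u) = 1` has only finitely many solutions in `O_S` with `u_0 ≠ 0`. -/
def ThueII {m : ℕ} (f : MvPolynomial (Fin (m + 1)) (𝓞 F₀)) : Prop :=
  ∀ (F : Type) [Field F] [NumberField F] [Algebra F₀ F] (S : Finset (HeightOneSpectrum (𝓞 F))),
    {u : Fin (m + 1) → SInt F S | f.eval₂ (structHom F₀ F S) u = 1 ∧ u 0 ≠ 0}.Finite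

/-- (i) for `f = 1` and the empty exceptional set: all solutions of `f(u) = 1` in entire functions are
constant. -/
def Thue0I (σ : F₀ →+* ℂ) {m : ℕ} (f : MvPolynomial (Fin (m + 1)) (𝓞 F₀)) : Prop :=
  ∀ u : Fin (m + 1) → ℂ → ℂ, (∀ k, Differentiable ℂ (u k)) →
    (∀ z, f.eval₂ (σ.comp (algebraMap (𝓞 F₀) F₀)) (fun k => u k z) = 1) →
    ∀ k z, u k z = u k 0

/-- (ii) for `f = 1` and the empty exceptional set: for all finite extensions `F` of `F₀` and all finite
sets `S` of places the equation `f(u) = 1` has only finitely many solutions in `O_S`. -/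
def Thue0II {m : ℕ} (f : MvPolynomial (Fin (m + 1)) (𝓞 F₀)) : Prop :=
  ∀ (F : Type) [Field F] [NumberField F] [Algebra F₀ F] (S : Finset (HeightOneSpectrum (𝓞 F))),
    {u : Fin (m + 1) → SInt F S | f.eval₂ (structHom F₀ F S) u = 1}.Finite

end Pool.Agent.Work.MP_e97a4d_nt.Thue
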