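import Mathlib

/-!
`g ↦ ∑_j (rename Fin.castSucc (homogeneousComponent j g)) * X (Fin.last) ^ (e - j)`, `e = 1 + max totalDegree`; cf.
`Hyp/Homog.lean`. The equality holds by homogeneity: `g^h(t v, t) = t^e g(v)`.
-/

set_option autoImplicit false

noncomputable section

namespace Pool.Agent.Work.MP_e97a4d_nt.Thue

open MvPolynomial

private theorem hl_scale {R : Type} [CommRing R] {m e : ℕ} {p : MvPolynomial (Fin (m + 1)) R}
    (hp : p.IsHomogeneous e) {K : Type} [CommRing K] (ρ : R →+* K) (c : K) (u : Fin (m + 1) → K) :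
    p.eval₂ ρ (fun k => c * u k) = c ^ e * p.eval₂ ρ u := by
  classical
  rw [MvPolynomial.eval₂_eq', MvPolynomial.eval₂_eq', Finset.mul_sum]
  apply Finset.sum_congr rfl
  intro d hd
  have h1 : ∑ i, d i = e := by
    by_contra hne
    apply MvPolynomial.mem_support_iff.1 hd
    apply hp.coeff_eq_zero
    intro h
    apply hne
    rw [← h, Finsupp.degree_eq_sum]
  simp only [mul_pow]
  rw [Finset.prod_mul_distrib, Finset.prod_pow_eq_pow_sum, h1]
  ring

/-- the homogenized polynomial -/
private def hl_h {O : Type} [CommRing O] {n : ℕ} (e : ℕ) (p : MvPolynomial (Fin (n + 1)) O) :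
    MvPolynomial (Fin (n + 1 + 1)) O :=
  ∑ j ∈ Finset.range (p.totalDegree + 1),
    rename Fin.castSucc (homogeneousComponent j p) * X (Fin.last (n + 1)) ^ (e - j)

private theorem hl_hom {O : Type} [CommRing O] {n : ℕ} {e : ℕ} {p : MvPolynomial (Fin (n + 1)) O}
    (h : p.totalDegree ≤ e) : (hl_h e p).IsHomogeneous e := by
  unfold hl_h
  apply MvPolynomial.IsHomogeneous.sum
  intro j hj
  have hj' : j ≤ e := by
    have := Finset.mem_range.1 hj
    omega
  have h1 := ((homogeneousComponent_isHomogeneous j p).rename_isHomogeneous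
    (f := Fin.castSucc)).mul
    (MvPolynomial.isHomogeneous_X_pow (R := O) (Fin.last (n + 1)) (e - j))
  rwa [Nat.add_sub_cancel' hj'] at h1

private theorem hl_eval {O : Type} [CommRing O] {n : ℕ} {e : ℕ} {p : MvPolynomial (Fin (n + 1)) O}
    (h : p.totalDegree ≤ e) (K : Type) [CommRing K] (ρ : O →+* K) (v : Fin (n + 1) → K) (t : K) :
    (hl_h e p).eval₂ ρ (Fin.snoc (fun k => t * v k) t : Fin (n + 1 + 1) → K) =
      t ^ e * p.eval₂ ρ v := by
  conv_rhs => rw [← MvPolynomial.sum_homogeneousComponent p]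
  unfold hl_h
  rw [MvPolynomial.eval₂_sum, MvPolynomial.eval₂_sum, Finset.mul_sum]
  apply Finset.sum_congr rfl
  intro j hj
  have hj' : j ≤ e := by
    have := Finset.mem_range.1 hj
    omega
  have h2 : ((Fin.snoc (fun k => t * v k) t : Fin (n + 1 + 1) → K) ∘ Fin.castSucc) =
      fun k => t * v k := by
    funext k
    simp
  rw [MvPolynomial.eval₂_mul, MvPolynomial.eval₂_pow, MvPolynomial.eval₂_X,
    MvPolynomial.eval₂_rename, h2, hl_scale (homogeneousComponent_isHomogeneous j p), Fin.snoc_last]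
  rw [show t ^ e = t ^ j * t ^ (e - j) by rw [← pow_add, Nat.add_sub_cancel' hj']]
  ring

/-- Homogeneous equations of the same degree, with one more variable. -/
theorem homogL {O : Type} [CommRing O] {n : ℕ} (E : Finset (MvPolynomial (Fin (n + 1)) O)) :
    ∃ (e : ℕ) (E' : Finset (MvPolynomial (Fin (n + 1 + 1)) O)), 1 ≤ e ∧ (∀ g ∈ E', g.IsHomogeneous e) ∧
      ∀ (K : Type) [Field K] (ρ : O →+* K) (v : Fin (n + 1) → K) (t : K), t ≠ 0 →
        ((∀ g ∈ E', g.eval₂ ρ (Fin.snoc (fun k => t * v k) t : Fin (n + 1 + 1) → K) = 0) ↔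
          ∀ g ∈ E, g.eval₂ ρ v = 0) := by
  classical
  have hle : ∀ p ∈ E, p.totalDegree ≤ 1 + E.sup totalDegree := by
    intro p hp
    have := Finset.le_sup (f := totalDegree) hp
    omega
  refine ⟨1 + E.sup totalDegree, E.image (hl_h (1 + E.sup totalDegree)), by omega, ?_, ?_⟩
  · intro g hgE
    obtain ⟨p, hp, rfl⟩ := Finset.mem_image.1 hgE
    exact hl_hom (hle p hp)
  · intro K _ ρ v t ht
    constructor
    · intro h g hgE
      have h1 := h _ (Finset.mem_image_of_mem _ hgE)
      rw [hl_eval (hle g hgE)] at h1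
      exact (mul_eq_zero.1 h1).resolve_left (pow_ne_zero _ ht)
    · intro h g hgE
      obtain ⟨p, hp, rfl⟩ := Finset.mem_image.1 hgE
      rw [hl_eval (hle p hp), h p hp, mul_zero]

end Pool.Agent.Work.MP_e97a4d_nt.Thue
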