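import Pool.Agent.Work.MP_e97a4d_nt.Thue.Defs

/-!
Systems of polynomial equations in affine space, relative to `x_0 = 0` (`b = 1`) or to the empty set
(`b = 0`).
-/

set_option autoImplicit false

noncomputable section

namespace Pool.Agent.Work.MP_e97a4d_nt.Thue

open IsDedekindDomain NumberField
open Pool.Agent.Work.MP_e97a4d_nt Pool.Agent.Work.MP_e97a4d_nt.Hyp

variable {F₀ : Type} [Field F₀]

/-- The solutions of the system `E` in the field `K` with coordinates in all valuation rings in `𝒱`, and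
with `x_0 ≠ 0` if `b ≠ 0`. -/
def APts {n : ℕ} (E : Finset (MvPolynomial (Fin (n + 1)) (𝓞 F₀))) (b : ℕ) {K : Type} [Field K]
    (ρ : 𝓞 F₀ →+* K) (𝒱 : Set (ValuationSubring K)) : Set (Fin (n + 1) → K) :=
  {u | (∀ e ∈ E, e.eval₂ ρ u = 0) ∧ u 0 ^ b ≠ 0 ∧ ∀ O ∈ 𝒱, ∀ k, u k ∈ O}

/-- condition (i) for a system -/
def AI (σ : F₀ →+* ℂ) {n : ℕ} (E : Finset (MvPolynomial (Fin (n + 1)) (𝓞 F₀))) (b : ℕ) : Prop :=
  ∀ u ∈ APts E b (rhoM σ) VM, ∀ k, u k ∈ Set.range (algebraMap ℂ Mero)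

/-- condition (ii) for a system -/
def AII {n : ℕ} (E : Finset (MvPolynomial (Fin (n + 1)) (𝓞 F₀))) (b : ℕ) : Prop :=
  ∀ (F : Type) [Field F] [NumberField F] [Algebra F₀ F] (T : Finset (HeightOneSpectrum (𝓞 F))),
    (APts E b (rhoF F₀ F) (VF F T)).Finite

end Pool.Agent.Work.MP_e97a4d_nt.Thue
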