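import Pool.Agent.Work.MP_e97a4d_nt.Thue.ThmT
import Pool.Agent.Work.MP_e97a4d_nt.Thue.HomogL
import Pool.Agent.Work.MP_e97a4d_nt.Thue.SysDefs
import Pool.Agent.Work.MP_e97a4d_nt.Hyp.MeroExp

/-!
`E'` from `homogL`, `M = n + 1`, `f, c, G` from `thmT` (`D₀ = Δ (2 * (n + 1) + 1)`), `m = 2 * (n + 1) + 1`.
Embedding of the solutions: for `τ` with `c τ = 1` (in the field `K`) `v ↦ u = (τ v, τ, 0, ..., 0)`:
`u ≠ 0`, `G(u) = 0`, `f(u) = (c τ)^d = 1`; injective; `u_0 = τ v_0`.
(1) AI E b → AI {f-1} b: `u` nonconstant, `f(u) = 1` gives `G(u) = 0`, so `u_k = 0` for `k > M` and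
`(c u_M)^d = 1`, `u_M ≠ 0`; `D (u_M) = 0` (from `(c u_M)^d = 1` in a field of characteristic 0), so `u_M` is a constant
(`Hyp` D_eq_zero_iff in MeroExp), `v = (u_0, ..., u_n)/u_M` is a solution of `E`, all `v_k` in all `Mz z` (`1/u_M` constant),
so constant.
(2) converse by the embedding with `τ = 1/c` constant.
(3) AII {f-1} b → AII E b: for given `F, T` let `T' = T ∪ {v dividing c}`; then `τ = 1/c ∈ VF F T'` and the
embedding maps `APts E b (VF F T)` to `APts {f-1} b (VF F T')` injectively (`VF F T' ⊆ VF F T`).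
(4) AII E b → finiteness of the `u ∈ APts {f-1} b (VF F T)` with `G(u) = 0`: `ω = c u_M` has `ω^d = 1`, finitely many
`ω`; `1/u_M = c ω^(-1)` lies in all rings of `VF F T` (`ω^(-1) = ω^(d-1)`); `u ↦ (ω, v)` is injective.
(5) is the last item of `thmT`.
-/

set_option autoImplicit false

noncomputable section

namespace Pool.Agent.Work.MP_e97a4d_nt.Thue

open IsDedekindDomain NumberField
open Pool.Agent.Work.MP_e97a4d_nt Pool.Agent.Work.MP_e97a4d_nt.Hyp

variable {F₀ : Type} [Field F₀] [NumberField F₀]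


/-- the embedding `v ↦ (τ v, τ, 0, ..., 0)` -/
private def hf_emb {n : ℕ} {K : Type} [Field K] (τ : K) (v : Fin (n + 1) → K) :
    Fin (2 * (n + 1) + 1 + 1) → K :=
  fun k => if h : (k : ℕ) < n + 1 then τ * v ⟨k, h⟩ else if (k : ℕ) = n + 1 then τ else 0

private theorem hf_emb_lt {n : ℕ} {K : Type} [Field K] (τ : K) (v : Fin (n + 1) → K)
    (i : Fin (n + 1)) : hf_emb τ v (Fin.castLE (by omega) i) = τ * v i := by
  have hi : ((Fin.castLE (by omega) i : Fin (2 * (n + 1) + 1 + 1)) : ℕ) < n + 1 := i.2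
  unfold hf_emb
  rw [dif_pos hi]
  rfl

private theorem hf_low_emb {n : ℕ} {K : Type} [Field K] (τ : K) (v : Fin (n + 1) → K) :
    low (M := n + 1) (hf_emb τ v) = (Fin.snoc (fun k => τ * v k) τ : Fin (n + 1 + 1) → K) := by
  funext k
  refine Fin.lastCases ?_ (fun i => ?_) k
  · rw [Fin.snoc_last]
    show hf_emb τ v (Fin.castLE (by omega) (Fin.last (n + 1))) = τ
    simp [hf_emb]
  · rw [Fin.snoc_castSucc]
    exact hf_emb_lt τ v i

private theorem hf_emb_gt {n : ℕ} {K : Type} [Field K] (τ : K) (v : Fin (n + 1) → K)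
    (k : Fin (2 * (n + 1) + 1 + 1)) (hk : n + 1 < (k : ℕ)) : hf_emb τ v k = 0 := by
  unfold hf_emb
  rw [dif_neg (by omega), if_neg (by omega)]

private theorem hf_snoc_low {n : ℕ} {K : Type} [Field K] (u : Fin (2 * (n + 1) + 1 + 1) → K) (t : K)
    (ht : t ≠ 0) (h : low (M := n + 1) u (Fin.last (n + 1)) = t) :
    low (M := n + 1) u =
      (Fin.snoc (fun k : Fin (n + 1) => t * (u (Fin.castLE (by omega) k) / t)) t :
        Fin (n + 1 + 1) → K) := by
  funext k
  refine Fin.lastCases ?_ (fun i => ?_) k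
  · rw [Fin.snoc_last, h]
  · rw [Fin.snoc_castSucc, mul_div_cancel₀ _ ht]
    rfl

private theorem hf_eval_zero {R : Type} [CommRing R] {m d : ℕ} {p : MvPolynomial (Fin (m + 1)) R}
    (hp : p.IsHomogeneous d) (hd : 1 ≤ d) {K : Type} [CommRing K] (ρ : R →+* K) :
    p.eval₂ ρ (0 : Fin (m + 1) → K) = 0 := by
  rw [MvPolynomial.eval₂_eq']
  apply Finset.sum_eq_zero
  intro e he
  have h1 : ∑ i, e i = d := by
    by_contra hne
    apply MvPolynomial.mem_support_iff.1 he
    apply hp.coeff_eq_zero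
    intro h
    apply hne
    rw [← h, Finsupp.degree_eq_sum]
  have h2 : ∃ i, e i ≠ 0 := by
    by_contra hc
    push Not at hc
    rw [Finset.sum_eq_zero (fun i _ => hc i)] at h1
    omega
  obtain ⟨i, hi⟩ := h2
  rw [Finset.prod_eq_zero (Finset.mem_univ i) (by rw [Pi.zero_apply, zero_pow hi]), mul_zero]

private theorem hf_eval_sub_one {R : Type} [CommRing R] {m : ℕ} (p : MvPolynomial (Fin (m + 1)) R)
    {K : Type} [CommRing K] (ρ : R →+* K) (u : Fin (m + 1) → K) :
    (∀ e ∈ ({p - 1} : Finset (MvPolynomial (Fin (m + 1)) R)), e.eval₂ ρ u = 0) ↔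
      p.eval₂ ρ u = 1 := by
  constructor
  · intro h
    have := h (p - 1) (Finset.mem_singleton_self _)
    rw [MvPolynomial.eval₂_sub, MvPolynomial.eval₂_one, sub_eq_zero] at this
    exact this
  · intro h e he
    rw [Finset.mem_singleton.1 he, MvPolynomial.eval₂_sub, MvPolynomial.eval₂_one, h, sub_self]

private theorem hf_finite_places {F : Type} [Field F] [NumberField F] (c : F) :
    {v : HeightOneSpectrum (𝓞 F) | 1 < v.valuation F c⁻¹}.Finite :=
  IsDedekindDomain.HeightOneSpectrum.Support.finite (𝓞 F) c⁻¹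

theorem half (σ : F₀ →+* ℂ) (Δ : ℕ → ℕ) {n : ℕ} (E : Finset (MvPolynomial (Fin (n + 1)) (𝓞 F₀))) :
    ∃ (m : ℕ) (f : MvPolynomial (Fin (m + 1)) (𝓞 F₀)) (ι : Type) (_ : Finite ι)
      (G : ι → MvPolynomial (Fin (m + 1)) (𝓞 F₀)), IsThue σ Δ m f ∧
      (∀ b, AI σ E b → AI σ {f - 1} b) ∧ (∀ b, AI σ {f - 1} b → AI σ E b) ∧
      (∀ b, AII {f - 1} b → AII E b) ∧
      (∀ b, AII E b → ∀ (F : Type) [Field F] [NumberField F] [Algebra F₀ F]
        (T : Finset (HeightOneSpectrum (𝓞 F))),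
        {u ∈ APts {f - 1} b (rhoF F₀ F) (VF F T) | ∀ i, (G i).eval₂ (rhoF F₀ F) u = 0}.Finite) ∧
      (∀ u : Fin (m + 1) → Mero, (∃ k, u k ∉ Set.range (algebraMap ℂ Mero)) →
        f.eval₂ (rhoM σ) u = 1 → ∀ i, (G i).eval₂ (rhoM σ) u = 0) := by
  classical
  obtain ⟨e, E', he, hE'hom, hE'eq⟩ := homogL E
  obtain ⟨d, f, c, ι, hι, G, hD, hd1, hc, hfd, hsm, hGiff, hGf, hGM⟩ :=
    thmT σ (Δ (2 * (n + 1) + 1)) (n + 1) e he E' hE'hom
  -- general facts
  have embG : ∀ (K : Type) [Field K] (ρ : 𝓞 F₀ →+* K) (τ : K), (c : K) * τ = 1 →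
      ∀ v : Fin (n + 1) → K, (∀ g ∈ E, g.eval₂ ρ v = 0) → f.eval₂ ρ (hf_emb τ v) = 1 := by
    intro K _ ρ τ hτ v hv
    have hτ0 : τ ≠ 0 := fun h => by rw [h, mul_zero] at hτ; exact zero_ne_one hτ
    have hlast : hf_emb τ v (Fin.castLE (by omega) (Fin.last (n + 1))) = τ := by
      have := congrFun (hf_low_emb τ v) (Fin.last (n + 1))
      rw [Fin.snoc_last] at this
      exact this
    have hne : hf_emb τ v ≠ 0 := by
      intro h
      rw [h] at hlast
      exact hτ0 hlast.symm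
    have hG : ∀ i, (G i).eval₂ ρ (hf_emb τ v) = 0 := by
      rw [hGiff K ρ _ hne]
      refine ⟨fun k hk => hf_emb_gt τ v k hk, ?_⟩
      rw [hf_low_emb, hE'eq K ρ v τ hτ0]
      exact hv
    rw [hGf K ρ _ hG, hf_low_emb, Fin.snoc_last, hτ, one_pow]
  have back : ∀ (K : Type) [Field K] (ρ : 𝓞 F₀ →+* K) (u : Fin (2 * (n + 1) + 1 + 1) → K),
      f.eval₂ ρ u = 1 → (∀ i, (G i).eval₂ ρ u = 0) →
      ∃ t : K, low (M := n + 1) u (Fin.last (n + 1)) = t ∧ t ≠ 0 ∧ ((c : K) * t) ^ d = 1 ∧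
        (∀ k : Fin (2 * (n + 1) + 1 + 1), n + 1 < (k : ℕ) → u k = 0) ∧
        ∀ g ∈ E, g.eval₂ ρ (fun k : Fin (n + 1) => u (Fin.castLE (by omega) k) / t) = 0 := by
    intro K _ ρ u hfu hG
    have hne : u ≠ 0 := by
      intro h
      rw [h, hf_eval_zero hfd hd1] at hfu
      exact zero_ne_one hfu
    obtain ⟨h1, h2⟩ := (hGiff K ρ u hne).1 hG
    have h3 := hGf K ρ u hG
    rw [hfu] at h3
    have ht : low (M := n + 1) u (Fin.last (n + 1)) ≠ 0 := by
      intro h
      rw [h, mul_zero, zero_pow (by omega)] at h3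
      exact one_ne_zero h3
    refine ⟨_, rfl, ht, h3.symm, h1, ?_⟩
    rw [hf_snoc_low u _ ht rfl, hE'eq K ρ _ _ ht] at h2
    exact h2
  refine ⟨2 * (n + 1) + 1, f, ι, Finite.of_fintype ι, G, ⟨⟨d, hD, hfd⟩, hsm ∅ (by simp),
    hsm {0} (by simp)⟩, ?_, ?_, ?_, ?_, hGM⟩
  · -- (1)
    intro b hAI u hu
    obtain ⟨hu1, hu2, hu3⟩ := hu
    rw [hf_eval_sub_one] at hu1
    by_contra hcon
    push Not at hcon
    obtain ⟨k0, hk0⟩ := hcon
    have hG := hGM u ⟨k0, hk0⟩ hu1
    obtain ⟨t, hlow, ht, htd, hz, hv⟩ := back Mero (rhoM σ) u hu1 hG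
    have htc : t ∈ Set.range (algebraMap ℂ Mero) := by
      have hcC : (c : ℂ) ≠ 0 := by exact_mod_cast hc
      have h1 : D (((c : Mero) * t) ^ d) = 0 := by
        rw [htd]
        exact Derivation.map_one_eq_zero D
      rw [Derivation.leibniz_pow, smul_eq_mul, nsmul_eq_mul] at h1
      have h3 : ((c : Mero) * t) ≠ 0 := by
        intro h
        rw [h, zero_pow (by omega)] at htd
        exact zero_ne_one htd
      have hdM : (d : Mero) ≠ 0 := by
        have : (d : Mero) = algebraMap ℂ Mero (d : ℂ) := by simp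
        rw [this]
        intro h
        have := (map_eq_zero _).1 h
        have h0 : d = 0 := by exact_mod_cast this
        omega
      have h2 : D ((c : Mero) * t) = 0 :=
        ((mul_eq_zero.1 ((mul_eq_zero.1 h1).resolve_left hdM)).resolve_left (pow_ne_zero _ h3))
      obtain ⟨a, ha⟩ := (D_eq_zero_iff _).1 h2
      refine ⟨(c : ℂ)⁻¹ * a, ?_⟩
      have hcM : (c : Mero) = algebraMap ℂ Mero (c : ℂ) := by simp
      rw [map_mul, ha, hcM, ← mul_assoc, ← map_mul, inv_mul_cancel₀ hcC, map_one, one_mul]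
    obtain ⟨τ0, hτ0⟩ := htc
    have hτ00 : τ0 ≠ 0 := by
      intro h
      rw [h, map_zero] at hτ0
      exact ht hτ0.symm
    have hinv : t⁻¹ = algebraMap ℂ Mero τ0⁻¹ := by rw [← hτ0, map_inv₀]
    have hv2 := hAI (fun k : Fin (n + 1) => u (Fin.castLE (by omega) k) / t) ⟨hv, ?_, ?_⟩
    · apply hk0
      rcases lt_trichotomy (k0 : ℕ) (n + 1) with h | h | h
      · obtain ⟨a, ha⟩ := hv2 ⟨k0, h⟩
        refine ⟨a * τ0, ?_⟩
        rw [map_mul, ha, hτ0]
        show u _ / t * t = u k0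
        rw [div_mul_cancel₀ _ ht]
        rfl
      · refine ⟨τ0, ?_⟩
        rw [hτ0, ← hlow]
        show u _ = u k0
        congr 1
        exact Fin.ext (by simp [h])
      · exact ⟨0, by rw [map_zero, hz k0 h]⟩
    · show (u _ / t) ^ b ≠ 0
      rw [div_pow]
      exact div_ne_zero hu2 (pow_ne_zero _ ht)
    · intro O hO k
      show u _ / t ∈ O
      rw [div_eq_mul_inv, hinv]
      obtain ⟨z, rfl⟩ := hO
      exact mul_mem (hu3 _ ⟨z, rfl⟩ _) (algebraMap_mem_Mz z _)
  · -- (2)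
    intro b hAI v hv
    obtain ⟨hv1, hv2, hv3⟩ := hv
    have hcC : (c : ℂ) ≠ 0 := by exact_mod_cast hc
    have hcM : (c : Mero) = algebraMap ℂ Mero (c : ℂ) := by simp
    have hτ : (c : Mero) * algebraMap ℂ Mero (c : ℂ)⁻¹ = 1 := by
      rw [hcM, ← map_mul, mul_inv_cancel₀ hcC, map_one]
    have hτ0 : algebraMap ℂ Mero (c : ℂ)⁻¹ ≠ 0 := fun h => by
      rw [h, mul_zero] at hτ
      exact zero_ne_one hτ
    have h1 := hAI (hf_emb (algebraMap ℂ Mero (c : ℂ)⁻¹) v) ⟨?_, ?_, ?_⟩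
    · intro k
      obtain ⟨a, ha⟩ := h1 (Fin.castLE (by omega) k)
      rw [hf_emb_lt] at ha
      refine ⟨c * a, ?_⟩
      rw [map_mul, ha, ← hcM, ← mul_assoc, hτ, one_mul]
    · rw [hf_eval_sub_one]
      exact embG Mero (rhoM σ) _ hτ v hv1
    · have h0 : hf_emb (algebraMap ℂ Mero (c : ℂ)⁻¹) v 0 = algebraMap ℂ Mero (c : ℂ)⁻¹ * v 0 :=
        hf_emb_lt _ v 0
      rw [h0, mul_pow]
      exact mul_ne_zero (pow_ne_zero _ hτ0) hv2
    · rintro O ⟨z, rfl⟩ k
      unfold hf_emb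
      split_ifs
      · exact mul_mem (algebraMap_mem_Mz z _) (hv3 _ ⟨z, rfl⟩ _)
      · exact algebraMap_mem_Mz z _
      · exact zero_mem _
  · -- (3)
    intro b hAII F _ _ _ T
    have hcF : (c : F) ≠ 0 := by exact_mod_cast hc
    have hfin := hf_finite_places (c : F)
    have hT' := hAII F (T ∪ hfin.toFinset)
    have hτ : (c : F) * (c : F)⁻¹ = 1 := mul_inv_cancel₀ hcF
    apply Set.Finite.of_injOn (f := hf_emb (c : F)⁻¹) _ _ hT'
    · rintro v ⟨hv1, hv2, hv3⟩
      have hsub : ∀ O ∈ VF F (T ∪ hfin.toFinset), O ∈ VF F T ∧ (c : F)⁻¹ ∈ O := by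
        rintro O ⟨w, hw, rfl⟩
        simp only [Finset.mem_union, Set.Finite.mem_toFinset, not_or] at hw
        refine ⟨⟨w, hw.1, rfl⟩, ?_⟩
        show (c : F)⁻¹ ∈ (w.valuation F).valuationSubring
        rw [Valuation.mem_valuationSubring_iff]
        exact not_lt.1 hw.2
      refine ⟨?_, ?_, ?_⟩
      · rw [hf_eval_sub_one]
        exact embG F (rhoF F₀ F) _ hτ v hv1
      · have h0 : hf_emb (c : F)⁻¹ v 0 = (c : F)⁻¹ * v 0 := hf_emb_lt _ v 0
        rw [h0, mul_pow]
        exact mul_ne_zero (pow_ne_zero _ (inv_ne_zero hcF)) hv2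
      · intro O hO k
        obtain ⟨hO1, hO2⟩ := hsub O hO
        unfold hf_emb
        split_ifs
        · exact mul_mem hO2 (hv3 _ hO1 _)
        · exact hO2
        · exact zero_mem _
    · intro v _ w _ hvw
      funext k
      have := congrFun hvw (Fin.castLE (by omega) k)
      rw [hf_emb_lt, hf_emb_lt] at this
      exact mul_left_cancel₀ (inv_ne_zero hcF) this
  · -- (4)
    intro b hAII F _ _ _ T
    have hcF : (c : F) ≠ 0 := by exact_mod_cast hc
    have hfin1 : {w : F | w ^ d = 1}.Finite := by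
      apply (Polynomial.nthRoots d (1 : F)).toFinset.finite_toSet.subset
      intro w hw
      simp only [Finset.mem_coe, Multiset.mem_toFinset]
      exact (Polynomial.mem_nthRoots (by omega)).2 hw
    have hfin2 := hfin1.prod (hAII F T)
    apply Set.Finite.of_injOn (f := fun u : Fin (2 * (n + 1) + 1 + 1) → F =>
      ((c : F) * low (M := n + 1) u (Fin.last (n + 1)),
        fun k : Fin (n + 1) => u (Fin.castLE (by omega) k) / low (M := n + 1) u (Fin.last (n + 1))))
      _ _ hfin2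
    · rintro u ⟨⟨hu1, hu2, hu3⟩, hG⟩
      rw [hf_eval_sub_one] at hu1
      obtain ⟨t, hlow, ht, htd, hz, hv⟩ := back F (rhoF F₀ F) u hu1 hG
      simp only [hlow]
      refine ⟨htd, hv, ?_, ?_⟩
      · show (u _ / t) ^ b ≠ 0
        rw [div_pow]
        exact div_ne_zero hu2 (pow_ne_zero _ ht)
      · intro O hO k
        show u _ / t ∈ O
        have hinv : t⁻¹ = (c : F) * ((c : F) * t) ^ (d - 1) := by
          have h1 : (c : F) * ((c : F) * t) ^ (d - 1) * t = 1 := by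
            calc (c : F) * ((c : F) * t) ^ (d - 1) * t = ((c : F) * t) ^ (d - 1) * ((c : F) * t) := by
                  ring
              _ = ((c : F) * t) ^ (d - 1 + 1) := (pow_succ _ _).symm
              _ = 1 := by rw [Nat.sub_add_cancel hd1, htd]
          exact (eq_inv_of_mul_eq_one_left h1).symm
        rw [div_eq_mul_inv, hinv]
        have hcO : (c : F) ∈ O := intCast_mem O c
        have hmem : (c : F) * t ∈ O := by
          rcases O.mem_or_inv_mem ((c : F) * t) with h | h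
          · exact h
          · have h1 : (c : F) * t = (((c : F) * t)⁻¹) ^ (d - 1) := by
              have h0 : (c : F) * t ≠ 0 := mul_ne_zero hcF ht
              rw [inv_pow]
              apply eq_inv_of_mul_eq_one_left
              rw [← pow_succ', Nat.sub_add_cancel hd1, htd]
            rw [h1]
            exact pow_mem h _
        exact mul_mem (hu3 O hO _) (mul_mem hcO (pow_mem hmem _))
    · rintro u ⟨⟨hu1, hu2, hu3⟩, hG⟩ w ⟨⟨hw1, hw2, hw3⟩, hG'⟩ huw
      rw [hf_eval_sub_one] at hu1 hw1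
      obtain ⟨t, hlow, ht, htd, hz, hv⟩ := back F (rhoF F₀ F) u hu1 hG
      obtain ⟨t', hlow', ht', htd', hz', hv'⟩ := back F (rhoF F₀ F) w hw1 hG'
      simp only [hlow, hlow', Prod.mk.injEq] at huw
      obtain ⟨h1, h2⟩ := huw
      have htt : t = t' := mul_left_cancel₀ hcF h1
      subst htt
      funext k
      rcases lt_trichotomy (k : ℕ) (n + 1) with h | h | h
      · have := congrFun h2 ⟨k, h⟩
        have h3 := (div_left_inj' ht).1 this
        exact h3
      · have hk : k = Fin.castLE (by omega) (Fin.last (n + 1)) := Fin.ext (by simp [h])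
        rw [hk]
        exact hlow.trans hlow'.symm
      · rw [hz k h, hz' k h]

end Pool.Agent.Work.MP_e97a4d_nt.Thue
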