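import Pool.Agent.Work.MP_e97a4d_nt.Thue.SysDefs
import Pool.Agent.Work.MP_e97a4d_nt.Hyp.CurveToPt
import Pool.Agent.Work.MP_e97a4d_nt.Hyp.PtToCurve
import Pool.Agent.Work.MP_e97a4d_nt.Hyp.IntGlue

set_option autoImplicit false

noncomputable section

namespace Pool.Agent.Work.MP_e97a4d_nt.Thue

open AlgebraicGeometry CategoryTheory IsDedekindDomain NumberField
open Pool.Agent.Work.MP_e97a4d_nt Pool.Agent.Work.MP_e97a4d_nt.Hyp

variable {F₀ : Type} [Field F₀] {V V' : Scheme.{0}}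

/-- (i) in terms of points with values in the field of meromorphic functions -/
theorem condI_pts (σ : F₀ →+* ℂ) (π : V ⟶ Sep.SpO F₀) [LocallyOfFiniteType π] (i : V' ⟶ V)
    [IsClosedImmersion i] :
    CondI σ π i ↔ ∀ x ∈ Pts π i (rhoM σ) VM, ∃ p : Spec (CommRingCat.of ℂ) ⟶ V,
      Spec.map (CommRingCat.ofHom (algebraMap ℂ Mero)) ≫ p = x := by
  constructor
  · intro H x hx
    by_contra hcon
    obtain ⟨f, hf, z, hz⟩ := pt_to_curve π i _ hx hcon
    exact hz (H f hf z)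
  · intro H f hf z
    by_contra hcon
    obtain ⟨x, hx, hxc⟩ := curve_to_pt π i f hf ⟨z, hcon⟩
    exact hxc (H x hx)

/-- (ii) in terms of points with values in number fields -/
theorem condII_pts (π : V ⟶ Sep.SpO F₀) [LocallyOfFiniteType π] [QuasiCompact π] (i : V' ⟶ V)
    [IsClosedImmersion i] :
    CondII π i ↔ ∀ (F : Type) [Field F] [NumberField F] [Algebra F₀ F]
      (T : Finset (HeightOneSpectrum (𝓞 F))), (Pts π i (rhoF F₀ F) (VF F T)).Finite := by
  constructor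
  · intro H F _ _ _ T
    refine ((H F T).image gen).subset ?_
    intro x₀ hx₀
    obtain ⟨x, h1, h2, h3⟩ := int_glue π i F T x₀ hx₀
    exact ⟨x, ⟨h1, h3⟩, h2⟩
  · intro H F _ _ _ T
    refine ((H F T).biUnion (fun x₀ _ => int_fin π F T x₀)).subset ?_
    rintro x ⟨h1, h2⟩
    exact Set.mem_biUnion (gen_mem π i F T x h1 h2) ⟨h1, rfl⟩

end Pool.Agent.Work.MP_e97a4d_nt.Thue
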