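import Pool.Agent.Work.MP_e97a4d_nt.Thue.PtsIff
import Pool.Agent.Work.MP_e97a4d_nt.Sep.Defs

/-!
Affine schemes of finite type and systems of equations.
-/

set_option autoImplicit false

noncomputable section

namespace Pool.Agent.Work.MP_e97a4d_nt.Thue

open AlgebraicGeometry CategoryTheory IsDedekindDomain NumberField
open Pool.Agent.Work.MP_e97a4d_nt Pool.Agent.Work.MP_e97a4d_nt.Hyp

namespace SchAux

variable {V : Scheme.{0}} {A : Type} [CommRing A] (e : V ≅ Spec (CommRingCat.of A))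

/-- the point of `V` given by a ring homomorphism -/
def pt {K : Type} [CommRing K] (φ : A →+* K) : Spec (CommRingCat.of K) ⟶ V :=
  Spec.map (CommRingCat.ofHom φ) ≫ e.inv

theorem pt_inj {K : Type} [CommRing K] {φ ψ : A →+* K} (h : pt e φ = pt e ψ) : φ = ψ := by
  unfold pt at h
  rw [cancel_mono] at h
  have h2 := Spec.map_injective h
  exact congrArg (fun f => f.hom) h2

theorem pt_surj {K : Type} [CommRing K] (x : Spec (CommRingCat.of K) ⟶ V) :
    ∃ φ : A →+* K, pt e φ = x := by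
  obtain ⟨f, hf⟩ := Spec.map_surjective (x ≫ e.hom)
  refine ⟨f.hom, ?_⟩
  unfold pt
  have h : CommRingCat.ofHom f.hom = f := rfl
  rw [h, hf, Category.assoc, e.hom_inv_id, Category.comp_id]

theorem map_pt {k K : Type} [CommRing k] [CommRing K] (τ : k →+* K) (ψ : A →+* k) :
    Spec.map (CommRingCat.ofHom τ) ≫ pt e ψ = pt e (τ.comp ψ) := by
  unfold pt
  rw [← Category.assoc, ← Spec.map_comp, ← CommRingCat.ofHom_comp]

theorem pt_over {F₀ : Type} [Field F₀] (π : V ⟶ Sep.SpO F₀) (α : 𝓞 F₀ →+* A)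
    (hα : e.hom ≫ Spec.map (CommRingCat.ofHom α) = π) {K : Type} [CommRing K] (ρ : 𝓞 F₀ →+* K)
    (φ : A →+* K) : pt e φ ≫ π = Spec.map (CommRingCat.ofHom ρ) ↔ φ.comp α = ρ := by
  have h1 : pt e φ ≫ π = Spec.map (CommRingCat.ofHom (φ.comp α)) := by
    rw [← hα, CommRingCat.ofHom_comp, Spec.map_comp]
    unfold pt
    rw [Category.assoc, Iso.inv_hom_id_assoc]
  rw [h1]
  constructor
  · intro h
    have h2 := Spec.map_injective h
    exact congrArg (fun f => f.hom) h2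
  · rintro rfl
    rfl

theorem pt_ext {K : Type} [Field K] (O : ValuationSubring K) (φ : A →+* K) :
    HasExt O (pt e φ) ↔ ∀ a, φ a ∈ O := by
  constructor
  · rintro ⟨y, hy⟩ a
    obtain ⟨ψ, rfl⟩ := pt_surj e y
    rw [map_pt] at hy
    have h := pt_inj e hy
    rw [← h]
    exact (ψ a).2
  · intro h
    let ψ : A →+* O := φ.codRestrict O.toSubring h
    refine ⟨pt e ψ, ?_⟩
    rw [map_pt]
    rfl

theorem pt_sub {k K : Type} [CommRing k] [CommRing K] (τ : k →+* K) (φ : A →+* K) :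
    (∃ p : Spec (CommRingCat.of k) ⟶ V, Spec.map (CommRingCat.ofHom τ) ≫ p = pt e φ) ↔
      ∃ ψ : A →+* k, τ.comp ψ = φ := by
  constructor
  · rintro ⟨p, hp⟩
    obtain ⟨ψ, rfl⟩ := pt_surj e p
    rw [map_pt] at hp
    exact ⟨ψ, pt_inj e hp⟩
  · rintro ⟨ψ, rfl⟩
    exact ⟨pt e ψ, map_pt e τ ψ⟩

/-- factoring a homomorphism through a subring -/
theorem factor {k K : Type} [CommRing k] [CommRing K] (τ : k →+* K) (hτ : Function.Injective τ)
    (φ : A →+* K) (h : ∀ a, φ a ∈ τ.range) : ∃ ψ : A →+* k, τ.comp ψ = φ := by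
  let ε : k ≃+* τ.range := RingEquiv.ofBijective τ.rangeRestrict
    ⟨fun a b hab => hτ (congrArg Subtype.val hab), τ.rangeRestrict_surjective⟩
  refine ⟨(ε.symm : τ.range →+* k).comp (φ.codRestrict τ.range h), ?_⟩
  ext a
  have h1 : ∀ y : τ.range, τ (ε.symm y) = y.1 := by
    intro y
    have h2 : ε (ε.symm y) = y := ε.apply_symm_apply y
    exact congrArg Subtype.val h2
  exact h1 _

/-- Equations of an affine scheme of finite type. -/
theorem nf' {O : Type} [CommRing O] [IsNoetherianRing O] {C : Type} [CommRing C] (c : O →+* C)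
    {M : ℕ} (t : Fin (M + 1) → C)
    (hgen : ∀ a : C, ∃ p : MvPolynomial (Fin (M + 1)) O, p.eval₂ c t = a) :
    ∃ E : Finset (MvPolynomial (Fin (M + 1)) O), ∀ (K : Type) [Field K] (ρ : O →+* K)
      (u : Fin (M + 1) → K), ((∀ e ∈ E, e.eval₂ ρ u = 0) ↔
        ∃ φ : C →+* K, φ.comp c = ρ ∧ ∀ k, φ (t k) = u k) := by
  have hfg : (RingHom.ker (MvPolynomial.eval₂Hom c t)).FG := IsNoetherian.noetherian _
  obtain ⟨E, hE⟩ := hfg
  refine ⟨E, fun K _ ρ u => ⟨fun h => ?_, ?_⟩⟩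
  · have hs : Function.Surjective (MvPolynomial.eval₂Hom c t) := fun a => hgen a
    have hle : RingHom.ker (MvPolynomial.eval₂Hom c t) ≤
        RingHom.ker (MvPolynomial.eval₂Hom ρ u) := by
      rw [← hE]
      refine Ideal.span_le.2 fun e he => ?_
      exact (RingHom.mem_ker).2 (h e he)
    refine ⟨(MvPolynomial.eval₂Hom c t).liftOfSurjective hs ⟨MvPolynomial.eval₂Hom ρ u, hle⟩, ?_,
      fun k => ?_⟩
    · ext a
      have h1 := RingHom.liftOfRightInverse_comp_apply (MvPolynomial.eval₂Hom c t) _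
        (Function.rightInverse_surjInv hs) ⟨MvPolynomial.eval₂Hom ρ u, hle⟩ (MvPolynomial.C a)
      simpa using h1
    · have h1 := RingHom.liftOfRightInverse_comp_apply (MvPolynomial.eval₂Hom c t) _
        (Function.rightInverse_surjInv hs) ⟨MvPolynomial.eval₂Hom ρ u, hle⟩ (MvPolynomial.X k)
      simpa using h1
  · rintro ⟨φ, h1, h2⟩ e he
    have h3 : e.eval₂ c t = 0 := by
      have : e ∈ RingHom.ker (MvPolynomial.eval₂Hom c t) := by
        rw [← hE]
        exact Ideal.subset_span he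
      exact (RingHom.mem_ker).1 this
    have h4 : e.eval₂ ρ u = φ (e.eval₂ c t) := by
      rw [← h1, MvPolynomial.hom_eval₂]
      congr 1
      funext k
      exact (h2 k).symm
    rw [h4, h3, map_zero]

/-- values of polynomials stay in a subring -/
theorem eval₂_mem {O K : Type} [CommRing O] [CommRing K] (R : Subring K) {n : ℕ} (ρ : O →+* K)
    (hρ : ∀ a, ρ a ∈ R) (u : Fin n → K) (hu : ∀ k, u k ∈ R) (p : MvPolynomial (Fin n) O) :
    p.eval₂ ρ u ∈ R := by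
  rw [MvPolynomial.eval₂_eq]
  refine Subring.sum_mem _ fun d _ => Subring.mul_mem _ (hρ _) ?_
  exact Subring.prod_mem _ fun i _ => Subring.pow_mem _ (hu i) _

variable {F₀ : Type} [Field F₀]

/-- generators `c` of `A` over `𝓞 F₀` and the equations `E` between them -/
structure Pres (α : 𝓞 F₀ →+* A) {n : ℕ} (c : Fin (n + 1) → A)
    (E : Finset (MvPolynomial (Fin (n + 1)) (𝓞 F₀))) : Prop where
  gen : ∀ a : A, ∃ p : MvPolynomial (Fin (n + 1)) (𝓞 F₀), p.eval₂ α c = a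
  eqs : ∀ (K : Type) [Field K] (ρ : 𝓞 F₀ →+* K) (u : Fin (n + 1) → K),
    ((∀ e ∈ E, e.eval₂ ρ u = 0) ↔ ∃ φ : A →+* K, φ.comp α = ρ ∧ ∀ k, φ (c k) = u k)

theorem Pres.ext {α : 𝓞 F₀ →+* A} {n : ℕ} {c : Fin (n + 1) → A}
    {E : Finset (MvPolynomial (Fin (n + 1)) (𝓞 F₀))} (P : Pres α c E) {K : Type} [CommRing K]
    {φ ψ : A →+* K} (h : φ.comp α = ψ.comp α) (h' : ∀ k, φ (c k) = ψ (c k)) : φ = ψ := by
  ext a
  obtain ⟨p, rfl⟩ := P.gen a
  rw [MvPolynomial.hom_eval₂, MvPolynomial.hom_eval₂, h]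
  congr 1
  funext k
  exact h' k

theorem Pres.mem {α : 𝓞 F₀ →+* A} {n : ℕ} {c : Fin (n + 1) → A}
    {E : Finset (MvPolynomial (Fin (n + 1)) (𝓞 F₀))} (P : Pres α c E) {K : Type} [CommRing K]
    {φ : A →+* K} (R : Subring K) (h : ∀ a, φ (α a) ∈ R) (h' : ∀ k, φ (c k) ∈ R) (a : A) :
    φ a ∈ R := by
  obtain ⟨p, rfl⟩ := P.gen a
  rw [MvPolynomial.hom_eval₂]
  exact eval₂_mem R _ h _ h' p

/-- the points of the system -/
theorem mem_APts {α : 𝓞 F₀ →+* A} {n : ℕ} {c : Fin (n + 1) → A}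
    {E : Finset (MvPolynomial (Fin (n + 1)) (𝓞 F₀))} (P : Pres α c E) (b : ℕ) {K : Type} [Field K]
    (ρ : 𝓞 F₀ →+* K) (𝒱 : Set (ValuationSubring K)) (h𝒱 : ∀ O ∈ 𝒱, ∀ a, ρ a ∈ O)
    (u : Fin (n + 1) → K) :
    u ∈ APts E b ρ 𝒱 ↔ ∃ φ : A →+* K, φ.comp α = ρ ∧ (∀ k, φ (c k) = u k) ∧ φ (c 0) ^ b ≠ 0 ∧
      ∀ O ∈ 𝒱, ∀ a, φ a ∈ O := by
  constructor
  · rintro ⟨h1, h2, h3⟩
    obtain ⟨φ, h4, h5⟩ := (P.eqs K ρ u).1 h1
    refine ⟨φ, h4, h5, ?_, ?_⟩
    · rw [h5]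
      exact h2
    · intro O hO a
      refine P.mem O.toSubring (φ := φ) ?_ ?_ a
      · intro a
        have h6 : φ (α a) = ρ a := by rw [← h4]; rfl
        rw [h6]
        exact h𝒱 O hO a
      · intro k
        rw [h5]
        exact h3 O hO k
  · rintro ⟨φ, h1, h2, h3, h4⟩
    refine ⟨(P.eqs K ρ u).2 ⟨φ, h1, h2⟩, ?_, ?_⟩
    · rw [← h2]
      exact h3
    · intro O hO k
      rw [← h2]
      exact h4 O hO _

theorem rhoM_mem (σ : F₀ →+* ℂ) : ∀ O ∈ VM, ∀ a, rhoM σ a ∈ O := by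
  rintro O ⟨z, rfl⟩ a
  exact algebraMap_mem_Mz z _

theorem rhoF_mem (F : Type) [Field F] [NumberField F] [Algebra F₀ F]
    (T : Finset (HeightOneSpectrum (𝓞 F))) : ∀ O ∈ VF F T, ∀ a, rhoF F₀ F a ∈ O := by
  rintro O ⟨v, _, rfl⟩ a
  change v.valuation F (algebraMap F₀ F (algebraMap (𝓞 F₀) F₀ a)) ≤ 1
  have h : algebraMap F₀ F (algebraMap (𝓞 F₀) F₀ a) =
      algebraMap (𝓞 F) F (RingOfIntegers.mapRingHom (algebraMap F₀ F) a) := rfl
  rw [h]
  exact v.valuation_le_one _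

section core

variable {V' : Scheme.{0}} (π : V ⟶ Sep.SpO F₀) [LocallyOfFiniteType π] (i : V' ⟶ V)
  [IsClosedImmersion i] (α : 𝓞 F₀ →+* A) (hα : e.hom ≫ Spec.map (CommRingCat.ofHom α) = π)
  {L : Type} (n : L → ℕ) (c : ∀ l, Fin (n l + 1) → A)
  (E : ∀ l, Finset (MvPolynomial (Fin (n l + 1)) (𝓞 F₀))) (P : ∀ l, Pres α (c l) (E l)) (b : ℕ)
  (hi : ∀ (K : Type) [Field K] (φ : A →+* K),
    pt e φ (⊥ : PrimeSpectrum K) ∉ Set.range i ↔ ∃ l, φ (c l 0) ^ b ≠ 0)

omit [LocallyOfFiniteType π] [IsClosedImmersion i] in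
include hα hi in
theorem mem_Pts {K : Type} [Field K] (ρ : 𝓞 F₀ →+* K) (𝒱 : Set (ValuationSubring K))
    (φ : A →+* K) : pt e φ ∈ Pts π i ρ 𝒱 ↔
      φ.comp α = ρ ∧ (∃ l, φ (c l 0) ^ b ≠ 0) ∧ ∀ O ∈ 𝒱, ∀ a, φ a ∈ O := by
  unfold Pts
  rw [Set.mem_ofPred_eq, pt_over e π α hα, hi]
  refine and_congr Iff.rfl (and_congr Iff.rfl ?_)
  exact forall_congr' fun O => forall_congr' fun _ => pt_ext e O φ

include hα hi P in
theorem core_I (σ : F₀ →+* ℂ) : CondI σ π i ↔ ∀ l, AI σ (E l) b := by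
  rw [condI_pts]
  constructor
  · intro H l u hu
    obtain ⟨φ, h1, h2, h3, h4⟩ := (mem_APts (P l) b _ _ (rhoM_mem σ) u).1 hu
    obtain ⟨ψ, hψ⟩ := (pt_sub e _ φ).1
      (H (pt e φ) ((mem_Pts e π i α hα n c b hi _ _ φ).2 ⟨h1, ⟨l, h3⟩, h4⟩))
    intro k
    rw [← h2, ← hψ]
    exact ⟨ψ (c l k), rfl⟩
  · intro H x hx
    obtain ⟨φ, rfl⟩ := pt_surj e x
    obtain ⟨h1, ⟨l, h2⟩, h3⟩ := (mem_Pts e π i α hα n c b hi _ _ φ).1 hx
    have h4 := H l (fun k => φ (c l k))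
      ((mem_APts (P l) b _ _ (rhoM_mem σ) _).2 ⟨φ, h1, fun _ => rfl, h2, h3⟩)
    refine (pt_sub e _ φ).2 (factor _ (algebraMap ℂ Mero).injective φ ?_)
    refine (P l).mem _ ?_ h4
    intro a
    have h5 : φ (α a) = rhoM σ a := by rw [← h1]; rfl
    rw [h5]
    exact ⟨_, rfl⟩

include hα hi P in
theorem core_II [Finite L] [QuasiCompact π] : CondII π i ↔ ∀ l, AII (E l) b := by
  rw [condII_pts]
  constructor
  · intro H l F _ _ _ T
    have hc : ∀ x : Spec (CommRingCat.of F) ⟶ V, ∃ φ : A →+* F, pt e φ = x := pt_surj e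
    choose Φ hΦ using hc
    refine ((H F T).image (fun x => fun k => Φ x (c l k))).subset ?_
    intro u hu
    obtain ⟨φ, h1, h2, h3, h4⟩ := (mem_APts (P l) b _ _ (rhoF_mem F T) u).1 hu
    refine ⟨pt e φ, (mem_Pts e π i α hα n c b hi _ _ φ).2 ⟨h1, ⟨l, h3⟩, h4⟩, ?_⟩
    funext k
    have h5 : Φ (pt e φ) = φ := pt_inj e (hΦ _)
    show Φ (pt e φ) (c l k) = u k
    rw [h5, h2]
  · intro H F _ _ _ T
    have hc : ∀ x : Spec (CommRingCat.of F) ⟶ V, ∃ φ : A →+* F, pt e φ = x := pt_surj e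
    choose Φ hΦ using hc
    have hfin : ∀ l, {x ∈ Pts π i (rhoF F₀ F) (VF F T) | Φ x (c l 0) ^ b ≠ 0}.Finite := by
      intro l
      refine Set.Finite.of_injOn (f := fun x => fun k => Φ x (c l k)) ?_ ?_ (H l F T)
      · rintro x ⟨hx, hx2⟩
        rw [← hΦ x] at hx
        obtain ⟨h1, h2, h3⟩ := (mem_Pts e π i α hα n c b hi _ _ _).1 hx
        exact (mem_APts (P l) b _ _ (rhoF_mem F T) _).2 ⟨Φ x, h1, fun _ => rfl, hx2, h3⟩
      · rintro x ⟨hx, _⟩ y ⟨hy, _⟩ hxy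
        rw [← hΦ x] at hx
        rw [← hΦ y] at hy
        have h1 := ((mem_Pts e π i α hα n c b hi _ _ _).1 hx).1
        have h2 := ((mem_Pts e π i α hα n c b hi _ _ _).1 hy).1
        have h3 : Φ x = Φ y := (P l).ext (h1.trans h2.symm) (fun k => congrFun hxy k)
        rw [← hΦ x, ← hΦ y, h3]
    refine (Set.finite_iUnion hfin).subset ?_
    intro x hx
    have hx' := hx
    rw [← hΦ x] at hx'
    obtain ⟨h1, ⟨l, h2⟩, h3⟩ := (mem_Pts e π i α hα n c b hi _ _ _).1 hx'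
    exact Set.mem_iUnion.2 ⟨l, hx, h2⟩

end core

/-- the homomorphism to the zero ring -/
def zr (A : Type) [CommRing A] : A →+* PUnit.{1} where
  toFun _ := PUnit.unit
  map_one' := rfl
  map_zero' := rfl
  map_mul' _ _ := rfl
  map_add' _ _ := rfl

/-- the empty closed subscheme -/
def emp : Spec (CommRingCat.of PUnit.{1}) ⟶ V :=
  Spec.map (CommRingCat.ofHom (zr A)) ≫ e.inv

instance : IsClosedImmersion (emp e) := by
  have h : IsClosedImmersion (Spec.map (CommRingCat.ofHom (zr A))) :=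
    IsClosedImmersion.spec_of_surjective _ (fun x => ⟨0, rfl⟩)
  unfold emp
  infer_instance

theorem no_pt {R : Type} [CommRing R] [Nontrivial R]
    (p : Spec (CommRingCat.of R) ⟶ Spec (CommRingCat.of PUnit.{1})) : False := by
  obtain ⟨f, -⟩ := Spec.map_surjective p
  have h1 : f.hom 1 = 1 := map_one _
  have h2 : f.hom 0 = 0 := map_zero _
  have h3 : (1 : PUnit.{1}) = 0 := rfl
  have h4 : f.hom 1 = f.hom 0 := congrArg f.hom h3
  exact one_ne_zero (h1.symm.trans (h4.trans h2))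

theorem noCurve_emp (σ : F₀ →+* ℂ) (π : V ⟶ Sep.SpO F₀) :
    Sep.NoCurve σ π ↔ CondI σ π (emp e) := by
  constructor
  · intro H f hf
    exact absurd hf (H f)
  · intro H f hf
    obtain ⟨p, hp⟩ := H f hf 0
    exact no_pt p

theorem finPts_emp (π : V ⟶ Sep.SpO F₀) :
    Sep.FinPts π ↔ CondII π (emp e) := by
  constructor
  · intro H F _ _ _ T
    exact (H F T).subset fun x hx => hx.1
  · intro H F _ _ _ T
    refine (H F T).subset fun x hx => ⟨hx, ?_⟩
    rintro ⟨y, hy⟩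
    exact no_pt y

theorem hi_emp {L : Type} [Nonempty L] {n : L → ℕ} (c : ∀ l, Fin (n l + 1) → A)
    (K : Type) [Field K] (φ : A →+* K) :
    pt e φ (⊥ : PrimeSpectrum K) ∉ Set.range (emp e) ↔ ∃ l, φ (c l 0) ^ 0 ≠ 0 := by
  constructor
  · intro _
    refine ⟨Classical.arbitrary L, ?_⟩
    rw [pow_zero]
    exact one_ne_zero
  · rintro - ⟨x, -⟩
    have h : IsEmpty (PrimeSpectrum PUnit.{1}) := inferInstance
    exact h.elim x

/-- the point of `Spec A` given by a homomorphism to a field -/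
theorem pt_hom {K : Type} [Field K] (φ : A →+* K) :
    e.hom (pt e φ (⊥ : PrimeSpectrum K)) = PrimeSpectrum.comap φ ⊥ := by
  have h1 : pt e φ ≫ e.hom = Spec.map (CommRingCat.ofHom φ) := by
    unfold pt
    rw [Category.assoc, e.inv_hom_id, Category.comp_id]
  have h2 : e.hom (pt e φ (⊥ : PrimeSpectrum K)) = (pt e φ ≫ e.hom) (⊥ : PrimeSpectrum K) := rfl
  rw [h2, h1]
  rfl

/-- the points outside a closed subscheme -/
theorem hi_closed {V' : Scheme.{0}} (i : V' ⟶ V) (I : Ideal A)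
    (hI : Set.range (i ≫ e.hom) = PrimeSpectrum.zeroLocus (I : Set A)) (K : Type) [Field K]
    (φ : A →+* K) : pt e φ (⊥ : PrimeSpectrum K) ∉ Set.range i ↔ ∃ a ∈ I, φ a ≠ 0 := by
  have h1 : pt e φ (⊥ : PrimeSpectrum K) ∈ Set.range i ↔
      PrimeSpectrum.comap φ ⊥ ∈ PrimeSpectrum.zeroLocus (I : Set A) := by
    rw [← hI, ← pt_hom e φ]
    constructor
    · rintro ⟨y, hy⟩
      refine ⟨y, ?_⟩
      rw [← hy]
      rfl
    · rintro ⟨y, hy⟩
      refine ⟨y, ?_⟩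
      have h3 : e.hom (i y) = e.hom (pt e φ (⊥ : PrimeSpectrum K)) := hy
      have h4 := congrArg e.inv h3
      have h5 : ∀ z : V, e.inv (e.hom z) = z := fun z => by
        have h6 : e.inv (e.hom z) = (e.hom ≫ e.inv) z := rfl
        rw [h6, e.hom_inv_id]
        rfl
      rw [h5, h5] at h4
      exact h4
  rw [h1, PrimeSpectrum.mem_zeroLocus, Set.not_subset]
  constructor
  · rintro ⟨a, ha, ha'⟩
    refine ⟨a, ha, fun h => ha' ?_⟩
    show φ a ∈ (⊥ : Ideal K)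
    rw [h]
    exact Ideal.zero_mem _
  · rintro ⟨a, ha, ha'⟩
    refine ⟨a, ha, fun h => ha' ?_⟩
    have h2 : φ a ∈ (⊥ : Ideal K) := h
    exact (Ideal.mem_bot).1 h2

end SchAux

open SchAux

variable {F₀ : Type} [Field F₀] [NumberField F₀]

/-- generators with a prescribed first one -/
private theorem exists_pres {A : Type} [CommRing A] (α : 𝓞 F₀ →+* A) (hα : α.FiniteType) :
    ∃ n : ℕ, ∀ h : A, ∃ (c : Fin (n + 1) → A) (E : Finset (MvPolynomial (Fin (n + 1)) (𝓞 F₀))),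
      c 0 = h ∧ Pres α c E := by
  let _ := α.toAlgebra
  have h3 : Algebra.FiniteType (𝓞 F₀) A := hα
  obtain ⟨n, g, hg⟩ := Algebra.FiniteType.iff_quotient_mvPolynomial''.1 h3
  refine ⟨n, fun h => ?_⟩
  have hgen : ∀ a : A, ∃ p : MvPolynomial (Fin (n + 1)) (𝓞 F₀),
      p.eval₂ α (Fin.cons h (fun k => g (MvPolynomial.X k))) = a := by
    intro a
    obtain ⟨p, rfl⟩ := hg a
    refine ⟨MvPolynomial.rename Fin.succ p, ?_⟩
    rw [MvPolynomial.eval₂_rename]
    have h4 : (Fin.cons h (fun k => g (MvPolynomial.X k)) : Fin (n + 1) → A) ∘ Fin.succ =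
        fun k => g (MvPolynomial.X k) := by
      funext k
      simp
    rw [h4]
    have h5 := MvPolynomial.aeval_unique g
    conv_rhs => rw [h5]
    rfl
  obtain ⟨E, hE⟩ := nf' α (Fin.cons h (fun k => g (MvPolynomial.X k))) hgen
  exact ⟨_, E, by simp, hgen, hE⟩

omit [NumberField F₀] in
/-- the ring of an affine scheme -/
private theorem exists_ring {V : Scheme.{0}} [IsAffine V] (π : V ⟶ Sep.SpO F₀)
    [LocallyOfFiniteType π] : ∃ (A : Type) (_ : CommRing A) (e : V ≅ Spec (CommRingCat.of A))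
      (α : 𝓞 F₀ →+* A), e.hom ≫ Spec.map (CommRingCat.ofHom α) = π ∧ α.FiniteType := by
  let π' : Spec (CommRingCat.of Γ(V, ⊤)) ⟶ Sep.SpO F₀ := V.isoSpec.inv ≫ π
  obtain ⟨ρ, hρ⟩ := Spec.map_surjective π'
  have h1 : LocallyOfFiniteType (Spec.map ρ) := by rw [hρ]; infer_instance
  have h2 : ρ.hom.FiniteType := by
    rwa [HasRingHomProperty.Spec_iff (P := @LocallyOfFiniteType)] at h1
  refine ⟨Γ(V, ⊤), inferInstance, V.isoSpec, ρ.hom, ?_, h2⟩
  have h7 : Spec.map (CommRingCat.ofHom ρ.hom) = π' := hρ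
  rw [h7]
  simp [π']

theorem aff_iff {V V' : Scheme.{0}} [IsAffine V] (π : V ⟶ Sep.SpO F₀) [LocallyOfFiniteType π]
    (i : V' ⟶ V) [IsClosedImmersion i] :
    ∃ (L : Type) (_ : Finite L) (n : L → ℕ) (E : ∀ l, Finset (MvPolynomial (Fin (n l + 1)) (𝓞 F₀))),
      (∀ σ : F₀ →+* ℂ, CondI σ π i ↔ ∀ l, AI σ (E l) 1) ∧ (CondII π i ↔ ∀ l, AII (E l) 1) := by
  obtain ⟨A, _, e, α, hα, hft⟩ := exists_ring π
  obtain ⟨n, hn⟩ := exists_pres α hft
  choose c E hc P using hn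
  have hcl : IsClosed (Set.range (i ≫ e.hom)) := (i ≫ e.hom).isClosedEmbedding.isClosed_range
  obtain ⟨I, hI⟩ := (PrimeSpectrum.isClosed_iff_zeroLocus_ideal _).1 hcl
  have hnoeth : IsNoetherianRing A := by
    let _ := α.toAlgebra
    have h3 : Algebra.FiniteType (𝓞 F₀) A := hft
    exact Algebra.FiniteType.isNoetherianRing (𝓞 F₀) A
  obtain ⟨S, hS⟩ : I.FG := IsNoetherian.noetherian I
  have hi : ∀ (K : Type) [Field K] (φ : A →+* K),
      pt e φ (⊥ : PrimeSpectrum K) ∉ Set.range i ↔ ∃ l : S, φ (c l.1 0) ^ 1 ≠ 0 := by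
    intro K _ φ
    rw [hi_closed e i I hI K φ]
    constructor
    · rintro ⟨a, ha, ha'⟩
      by_contra hcon
      push Not at hcon
      have h1 : I ≤ RingHom.ker φ := by
        rw [← hS]
        refine Ideal.span_le.2 fun s hs => ?_
        have h2 := hcon ⟨s, hs⟩
        rw [hc, pow_one] at h2
        exact (RingHom.mem_ker).2 h2
      exact ha' ((RingHom.mem_ker).1 (h1 ha))
    · rintro ⟨l, hl⟩
      rw [hc, pow_one] at hl
      refine ⟨l.1, ?_, hl⟩
      rw [← hS]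
      exact Ideal.subset_span l.2
  refine ⟨S, inferInstance, fun _ => n, fun l => E l.1, fun σ => ?_, ?_⟩
  · exact core_I e π i α hα (fun _ => n) (fun l => c l.1) _ (fun l => P l.1) 1 hi σ
  · exact core_II e π i α hα (fun _ => n) (fun l => c l.1) _ (fun l => P l.1) 1 hi

theorem aff0_iff {V : Scheme.{0}} [IsAffine V] (π : V ⟶ Sep.SpO F₀) [LocallyOfFiniteType π] :
    ∃ (n : ℕ) (E : Finset (MvPolynomial (Fin (n + 1)) (𝓞 F₀))),
      (∀ σ : F₀ →+* ℂ, Sep.NoCurve σ π ↔ AI σ E 0) ∧ (Sep.FinPts π ↔ AII E 0) := by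
  obtain ⟨A, _, e, α, hα, hft⟩ := exists_ring π
  obtain ⟨n, hn⟩ := exists_pres α hft
  obtain ⟨c, E, hc, P⟩ := hn 0
  refine ⟨n, E, fun σ => ?_, ?_⟩
  · rw [noCurve_emp e, core_I (L := Unit) e π (emp e) α hα (fun _ => n) (fun _ => c) (fun _ => E)
      (fun _ => P) 0 (hi_emp e (fun _ => c)) σ]
    exact ⟨fun h => h (), fun h _ => h⟩
  · rw [finPts_emp e, core_II (L := Unit) e π (emp e) α hα (fun _ => n) (fun _ => c) (fun _ => E)
      (fun _ => P) 0 (hi_emp e (fun _ => c))]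
    exact ⟨fun h => h (), fun h _ => h⟩

/-- the affine scheme given by a system -/
private theorem quot_pres {n : ℕ} (E : Finset (MvPolynomial (Fin (n + 1)) (𝓞 F₀))) :
    Pres (A := MvPolynomial (Fin (n + 1)) (𝓞 F₀) ⧸ Ideal.span (E : Set (MvPolynomial _ (𝓞 F₀))))
      ((Ideal.Quotient.mk _).comp MvPolynomial.C) (fun k => Ideal.Quotient.mk _ (MvPolynomial.X k))
      E := by
  have h0 : ∀ p : MvPolynomial (Fin (n + 1)) (𝓞 F₀), p.eval₂ ((Ideal.Quotient.mk
      (Ideal.span (E : Set (MvPolynomial _ (𝓞 F₀))))).comp MvPolynomial.C)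
      (fun k => Ideal.Quotient.mk _ (MvPolynomial.X k)) = Ideal.Quotient.mk _ p := by
    intro p
    have h1 := MvPolynomial.hom_eval₂ p MvPolynomial.C (Ideal.Quotient.mk
      (Ideal.span (E : Set (MvPolynomial _ (𝓞 F₀))))) MvPolynomial.X
    rw [MvPolynomial.eval₂_eta] at h1
    rw [h1]
  constructor
  · intro a
    obtain ⟨p, rfl⟩ := Ideal.Quotient.mk_surjective a
    exact ⟨p, h0 p⟩
  · intro K _ ρ u
    constructor
    · intro h
      have hle : ∀ a ∈ Ideal.span (E : Set (MvPolynomial _ (𝓞 F₀))),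
          MvPolynomial.eval₂Hom ρ u a = 0 := by
        intro a ha
        have h1 : Ideal.span (E : Set (MvPolynomial _ (𝓞 F₀))) ≤
            RingHom.ker (MvPolynomial.eval₂Hom ρ u) :=
          Ideal.span_le.2 fun e he => (RingHom.mem_ker).2 (h e he)
        exact (RingHom.mem_ker).1 (h1 ha)
      refine ⟨Ideal.Quotient.lift _ (MvPolynomial.eval₂Hom ρ u) hle, ?_, ?_⟩
      · ext a
        simp
      · intro k
        simp
    · rintro ⟨φ, rfl, h2⟩ e he
      have h3 : (Ideal.Quotient.mk (Ideal.span (E : Set (MvPolynomial _ (𝓞 F₀))))) e = 0 :=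
        Ideal.Quotient.eq_zero_iff_mem.2 (Ideal.subset_span he)
      rw [← h0] at h3
      have h4 := congrArg φ h3
      rw [MvPolynomial.hom_eval₂, map_zero] at h4
      rw [← h4]
      congr 1
      funext k
      exact (h2 k).symm

omit [NumberField F₀] in
private theorem quot_ft {n : ℕ} (E : Finset (MvPolynomial (Fin (n + 1)) (𝓞 F₀))) :
    LocallyOfFiniteType (Spec.map (CommRingCat.ofHom ((Ideal.Quotient.mk
      (Ideal.span (E : Set (MvPolynomial (Fin (n + 1)) (𝓞 F₀))))).comp MvPolynomial.C))) := by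
  rw [HasRingHomProperty.Spec_iff (P := @LocallyOfFiniteType)]
  exact RingHom.FiniteType.comp (RingHom.FiniteType.of_surjective _ Ideal.Quotient.mk_surjective)
    (by
      have h : Algebra.FiniteType (𝓞 F₀) (MvPolynomial (Fin (n + 1)) (𝓞 F₀)) := inferInstance
      have h2 := RingHom.finiteType_algebraMap.2 h
      exact h2)

theorem aff_ex {n : ℕ} (E : Finset (MvPolynomial (Fin (n + 1)) (𝓞 F₀))) :
    ∃ (V V' : Scheme.{0}) (π : V ⟶ Sep.SpO F₀) (i : V' ⟶ V), IsAffine V ∧ LocallyOfFiniteType π ∧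
      IsClosedImmersion i ∧ (∀ σ : F₀ →+* ℂ, CondI σ π i ↔ AI σ E 1) ∧ (CondII π i ↔ AII E 1) := by
  let A : Type := MvPolynomial (Fin (n + 1)) (𝓞 F₀) ⧸
    Ideal.span (E : Set (MvPolynomial (Fin (n + 1)) (𝓞 F₀)))
  let α : 𝓞 F₀ →+* A := (Ideal.Quotient.mk _).comp MvPolynomial.C
  let c : Fin (n + 1) → A := fun k => Ideal.Quotient.mk _ (MvPolynomial.X k)
  let I : Ideal A := Ideal.span {c 0}
  let V : Scheme.{0} := Spec (CommRingCat.of A)
  let π : V ⟶ Sep.SpO F₀ := Spec.map (CommRingCat.ofHom α)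
  let V' : Scheme.{0} := Spec (CommRingCat.of (A ⧸ I))
  let i : V' ⟶ V := Spec.map (CommRingCat.ofHom (Ideal.Quotient.mk I))
  let e : V ≅ Spec (CommRingCat.of A) := Iso.refl _
  have hπ : LocallyOfFiniteType π := quot_ft E
  have hicl : IsClosedImmersion i :=
    IsClosedImmersion.spec_of_surjective _ Ideal.Quotient.mk_surjective
  have hα : e.hom ≫ Spec.map (CommRingCat.ofHom α) = π := Category.id_comp _
  have hI : Set.range (i ≫ e.hom) = PrimeSpectrum.zeroLocus (I : Set A) := by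
    have h1 : i ≫ e.hom = i := Category.comp_id _
    rw [h1]
    have h2 := range_comap_of_surjective (A ⧸ I) (Ideal.Quotient.mk I)
      Ideal.Quotient.mk_surjective
    rw [Ideal.mk_ker] at h2
    exact h2
  have hi : ∀ (K : Type) [Field K] (φ : A →+* K),
      pt e φ (⊥ : PrimeSpectrum K) ∉ Set.range i ↔ ∃ l : Unit, φ (c 0) ^ 1 ≠ 0 := by
    intro K _ φ
    rw [hi_closed e i I hI K φ]
    constructor
    · rintro ⟨a, ha, ha'⟩
      refine ⟨(), ?_⟩
      rw [pow_one]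
      intro h
      apply ha'
      obtain ⟨b, rfl⟩ := Ideal.mem_span_singleton'.1 ha
      rw [map_mul, h, mul_zero]
    · rintro ⟨-, hl⟩
      rw [pow_one] at hl
      exact ⟨c 0, Ideal.mem_span_singleton_self _, hl⟩
  refine ⟨V, V', π, i, inferInstance, hπ, hicl, fun σ => ?_, ?_⟩
  · rw [core_I (L := Unit) e π i α hα (fun _ => n) (fun _ => c) (fun _ => E)
      (fun _ => quot_pres E) 1 hi σ]
    exact ⟨fun h => h (), fun h _ => h⟩
  · rw [core_II (L := Unit) e π i α hα (fun _ => n) (fun _ => c) (fun _ => E)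
      (fun _ => quot_pres E) 1 hi]
    exact ⟨fun h => h (), fun h _ => h⟩

theorem aff0_ex {n : ℕ} (E : Finset (MvPolynomial (Fin (n + 1)) (𝓞 F₀))) :
    ∃ (V : Scheme.{0}) (π : V ⟶ Sep.SpO F₀), IsAffine V ∧ LocallyOfFiniteType π ∧
      (∀ σ : F₀ →+* ℂ, Sep.NoCurve σ π ↔ AI σ E 0) ∧ (Sep.FinPts π ↔ AII E 0) := by
  let A : Type := MvPolynomial (Fin (n + 1)) (𝓞 F₀) ⧸
    Ideal.span (E : Set (MvPolynomial (Fin (n + 1)) (𝓞 F₀)))
  let α : 𝓞 F₀ →+* A := (Ideal.Quotient.mk _).comp MvPolynomial.C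
  let c : Fin (n + 1) → A := fun k => Ideal.Quotient.mk _ (MvPolynomial.X k)
  let V : Scheme.{0} := Spec (CommRingCat.of A)
  let π : V ⟶ Sep.SpO F₀ := Spec.map (CommRingCat.ofHom α)
  let e : V ≅ Spec (CommRingCat.of A) := Iso.refl _
  have hπ : LocallyOfFiniteType π := quot_ft E
  have hα : e.hom ≫ Spec.map (CommRingCat.ofHom α) = π := Category.id_comp _
  refine ⟨V, π, inferInstance, hπ, fun σ => ?_, ?_⟩
  · rw [noCurve_emp e, core_I (L := Unit) e π (emp e) α hα (fun _ => n) (fun _ => c) (fun _ => E)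
      (fun _ => quot_pres E) 0 (hi_emp e (fun _ => c)) σ]
    exact ⟨fun h => h (), fun h _ => h⟩
  · rw [finPts_emp e, core_II (L := Unit) e π (emp e) α hα (fun _ => n) (fun _ => c) (fun _ => E)
      (fun _ => quot_pres E) 0 (hi_emp e (fun _ => c))]
    exact ⟨fun h => h (), fun h _ => h⟩

end Pool.Agent.Work.MP_e97a4d_nt.Thue
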