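import Pool.Agent.Work.MP_e97a4d_nt.Thue.ClaimT
import Pool.Agent.Work.MP_e97a4d_nt.Hyp.ThmA

/-!
Every affine variety lies in a hypersurface `f = 1`, `f` a smooth form, with the same nonconstant entire
curves.
-/

set_option autoImplicit false

noncomputable section

namespace Pool.Agent.Work.MP_e97a4d_nt.Thue

open MvPolynomial NumberField
open Pool.Agent.Work.MP_e97a4d_nt.Hyp

/-- Every affine variety (with homogenised equations `E`, the variable at infinity being the last of the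
first `M + 1` variables) lies in `f = 1`, `f` a smooth form, such that all nonconstant solutions of `f = 1` lie
in the variety. -/
theorem thmT {F₀ : Type} [Field F₀] [NumberField F₀] (σ : F₀ →+* ℂ) (D₀ M e : ℕ) (he : 1 ≤ e)
    (E : Finset (MvPolynomial (Fin (M + 1)) (𝓞 F₀))) (hE : ∀ g ∈ E, g.IsHomogeneous e) :
    ∃ (d : ℕ) (f : MvPolynomial (Fin (2 * M + 1 + 1)) (𝓞 F₀)) (c : ℤ) (ι : Type) (_ : Fintype ι)
      (G : ι → MvPolynomial (Fin (2 * M + 1 + 1)) (𝓞 F₀)),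
      D₀ ≤ d ∧ 1 ≤ d ∧ c ≠ 0 ∧ f.IsHomogeneous d ∧
      (∀ T : Set (Fin (2 * M + 1 + 1)), (∀ t ∈ T, (t : ℕ) ≤ M) → SmoothOn σ f T) ∧
      (∀ (K : Type) [Field K] (ρ : 𝓞 F₀ →+* K) (u : Fin (2 * M + 1 + 1) → K), u ≠ 0 →
        ((∀ i, (G i).eval₂ ρ u = 0) ↔
          (∀ k : Fin (2 * M + 1 + 1), M < (k : ℕ) → u k = 0) ∧
            ∀ g ∈ E, g.eval₂ ρ (low u) = 0)) ∧
      (∀ (K : Type) [Field K] (ρ : 𝓞 F₀ →+* K) (u : Fin (2 * M + 1 + 1) → K),
        (∀ i, (G i).eval₂ ρ u = 0) → f.eval₂ ρ u = ((c : K) * low u (Fin.last M)) ^ d) ∧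
      (∀ ξ : Fin (2 * M + 1 + 1) → Mero, (∃ k, ξ k ∉ Set.range (algebraMap ℂ Mero)) →
        f.eval₂ (rhoM σ) ξ = 1 → ∀ i, (G i).eval₂ (rhoM σ) ξ = 0) := by
  classical
  set ι := {g // g ∈ E} ⊕ (Fin (M + 1) × Fin (2 * M + 1 + 1)) with hι
  set J := (2 * M + 1 + 1) ^ 3 + (2 * M + 1) + 4 with hJ
  set σ' : 𝓞 F₀ →+* ℂ := σ.comp (algebraMap (𝓞 F₀) F₀) with hσ'
  obtain ⟨N₀, hN₀⟩ := claimT (2 * M + 1) e J ι le_rfl
  set N := N₀ + D₀ + 1 with hN
  obtain ⟨L₀, hL₀⟩ := exists_gen (ι × Fin J) (2 * M + 1 + 1)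
  have hinj : Function.Injective σ' := by
    rw [hσ']
    exact σ.injective.comp (FaithfulSMul.algebraMap_injective (𝓞 F₀) F₀)
  have hchar : CharZero (𝓞 F₀) := inferInstance
  set L : ι × Fin J → Fin (2 * M + 1 + 1) → 𝓞 F₀ := fun p k => ((L₀ p k : ℤ) : 𝓞 F₀) with hL
  have hGen : Gen fun p k => σ' (L p k) := by
    have h1 := hL₀.map (σ'.comp (Int.castRingHom (𝓞 F₀)))
      (hinj.comp Int.cast_injective)
    exact h1
  have hJ' : 2 * (2 * M + 1) + 1 ≤ J := by
    have h1 : 2 * M + 1 + 1 ≤ (2 * M + 1 + 1) ^ 3 := Nat.le_self_pow (by norm_num) _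
    omega
  set tM : Fin (2 * M + 1 + 1) := Fin.castLE (by omega) (Fin.last M) with htM
  set φ : Option (ι × Fin J) → MvPolynomial (Fin (2 * M + 1 + 1)) (𝓞 F₀) := fun p =>
    p.elim (X tM ^ (e + N)) fun p => thmA_G M e E p.1 * linPoly (L p) ^ N with hφ
  have hφh : ∀ p, (φ p).IsHomogeneous (e + N) := by
    intro p
    rcases p with _ | p
    · exact isHomogeneous_X_pow _ _
    · have h1 := (thmA_G_homog M e he E hE p.1).mul ((thmA_linPoly_homog (L p)).pow N)
      rwa [one_mul] at h1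
  obtain ⟨a, ha, hsm⟩ := exists_smooth σ (P := Option (ι × Fin J)) φ (e + N) hφh
    {T | ∀ t ∈ T, (t : ℕ) ≤ M}
    (fun T hT v hv hvT => by
      obtain ⟨t, y, l₀, h1, h2, c, h3, h4⟩ :=
        thmA_rank σ' M e N he (by omega) E hE J hJ' L hGen T hT v hv hvT
      refine ⟨t, y, l₀, h1, h2, c, h3, ?_⟩
      exact LinearIndependent.of_comp (LinearMap.funLeft ℂ ℂ (some : ι × Fin J → Option (ι × Fin J)))
        h4)
  set c : ℤ := a none with hc
  have hc0 : c ≠ 0 := ha none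
  set f₀ : MvPolynomial (Fin (2 * M + 1 + 1)) (𝓞 F₀) := ∑ p, C (a p : 𝓞 F₀) * φ p with hf₀
  set r : 𝓞 F₀ := (c : 𝓞 F₀) ^ (e + N - 1) with hr
  have hr0 : r ≠ 0 := pow_ne_zero _ (by exact_mod_cast hc0)
  have hev : ∀ (K : Type) [Field K] (ρ : 𝓞 F₀ →+* K) (u : Fin (2 * M + 1 + 1) → K),
      (C r * f₀).eval₂ ρ u = (c : K) ^ (e + N) * u tM ^ (e + N) +
        ∑ p : ι × Fin J, ρ (r * (a (some p) : 𝓞 F₀)) * (thmA_G M e E p.1).eval₂ ρ u *
          (∑ k, ρ (L p k) * u k) ^ N := by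
    intro K _ ρ u
    rw [eval₂_mul, eval₂_C, hf₀, eval₂_sum, Fintype.sum_option, mul_add, Finset.mul_sum]
    congr 1
    · simp only [hφ, Option.elim_none, eval₂_mul, eval₂_C, eval₂_pow, eval₂_X]
      rw [hr, map_pow, map_intCast, ← mul_assoc]
      congr 1
      rw [← pow_succ]
      congr 1
    · refine Finset.sum_congr rfl fun p _ => ?_
      simp only [hφ, Option.elim_some, eval₂_mul, eval₂_C, eval₂_pow, linPoly, eval₂_sum, eval₂_X,
        map_mul]
      ring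
  refine ⟨e + N, C r * f₀, c, ι, inferInstance, thmA_G M e E, by omega, by omega, hc0, ?_, ?_, ?_,
    ?_, ?_⟩
  · have h1 : f₀.IsHomogeneous (e + N) := by
      refine IsHomogeneous.sum _ _ _ fun p _ => ?_
      have h2 := (isHomogeneous_C (Fin (2 * M + 1 + 1)) ((a p : ℤ) : 𝓞 F₀)).mul (hφh p)
      rwa [zero_add] at h2
    have h2 := (isHomogeneous_C (Fin (2 * M + 1 + 1)) r).mul h1
    rwa [zero_add] at h2
  · intro T hT x hx hk
    refine hsm T hT x hx fun k hkT => ?_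
    have h1 := hk k hkT
    rw [pderiv_mul, pderiv_C, zero_mul, zero_add, eval₂_mul, eval₂_C] at h1
    refine (mul_eq_zero.1 h1).resolve_left ?_
    intro h2
    exact hr0 (hinj (by rw [map_zero]; exact h2))
  · intro K _ ρ u hu
    constructor
    · intro h
      refine ⟨fun k hk => ?_, fun g hg => ?_⟩
      · obtain ⟨l, hl⟩ : ∃ l, u l ≠ 0 := Function.ne_iff.mp hu
        have h1 := h (Sum.inr (⟨(k : ℕ) - (M + 1), by omega⟩, l))
        have h2 : thmA_y M ⟨(k : ℕ) - (M + 1), by omega⟩ = k := by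
          apply Fin.ext
          rw [thmA_y_val]
          simp only
          omega
        simp only [thmA_G, eval₂_mul, eval₂_pow, eval₂_X, h2] at h1
        exact (mul_eq_zero.mp h1).resolve_right (pow_ne_zero _ hl)
      · have h1 := h (Sum.inl ⟨g, hg⟩)
        simp only [thmA_G, eval₂_rename] at h1
        exact h1
    · rintro ⟨h1, h2⟩ (g | q)
      · simp only [thmA_G, eval₂_rename]
        exact h2 g.1 g.2
      · simp only [thmA_G, eval₂_mul, eval₂_X]
        rw [h1 (thmA_y M q.1) (by rw [thmA_y_val]; omega), zero_mul]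
  · intro K _ ρ u h
    rw [hev, Finset.sum_eq_zero fun p _ => ?_, add_zero, mul_pow]
    · rfl
    · rw [h p.1, mul_zero, zero_mul]
  · intro ξ hξ hf i
    rw [hev] at hf
    have hr' : ∀ p : MvPolynomial (Fin (2 * M + 1 + 1)) (𝓞 F₀),
        p.eval₂ (rhoM σ) ξ = MvPolynomial.aeval ξ (map σ' p) := by
      intro p
      rw [aeval_def, eval₂_map]
      rfl
    rw [hr']
    refine hN₀ N (by omega) (fun i => map σ' (thmA_G M e E i))
      (fun i => (thmA_G_homog M e he E hE i).map σ') (fun p k => σ' (L p k)) hGen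
      (fun p => σ' (r * (a (some p) : 𝓞 F₀))) (fun p => ?_) ((c : ℂ) ^ (e + N)) tM ξ hξ ?_ i
    · intro h
      have h1 := (map_eq_zero_iff σ' hinj).mp h
      rcases mul_eq_zero.1 h1 with h2 | h2
      · exact hr0 h2
      · exact ha (some p) (by exact_mod_cast h2)
    · rw [← hf]
      have h1 : algebraMap ℂ Mero ((c : ℂ) ^ (e + N)) = (c : Mero) ^ (e + N) := by
        rw [map_pow, map_intCast]
      rw [h1]
      congr 1
      refine Finset.sum_congr rfl fun p _ => ?_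
      rw [hr']
      unfold lin
      congr 2

end Pool.Agent.Work.MP_e97a4d_nt.Thue
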